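import Pool.Agent.T2H73.LC.CStep

/-!
# Package CF: the coupling of stage `k` with the final law
-/

set_option autoImplicit false

namespace Pool.Agent.T2H73.LC

open MeasureTheory Filter Topology Set
open scoped ENNReal

theorem convexOrder_pt_three {M b m1 x1 m2 x2 m3 x3 : ℝ} (h1 : 0 ≤ m1) (h2 : 0 ≤ m2)
    (h3 : 0 ≤ m3) (hM : m1 + m2 + m3 = M) (hb : m1 * x1 + m2 * x2 + m3 * x3 = M * b) :
    ConvexOrder (pt M b) (pt m1 x1 + pt m2 x2 + pt m3 x3) := by
  have h := convexOrder_pt (Finset.univ : Finset (Fin 3)) ![m1, m2, m3] ![x1, x2, x3]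
    (by intro i _; fin_cases i <;> simpa) M b (by simpa [Fin.sum_univ_three] using hM)
    (by simpa [Fin.sum_univ_three] using hb)
  simpa [Fin.sum_univ_three] using h

theorem convexOrder_pt_four {M b m1 x1 m2 x2 m3 x3 m4 x4 : ℝ} (h1 : 0 ≤ m1) (h2 : 0 ≤ m2)
    (h3 : 0 ≤ m3) (h4 : 0 ≤ m4) (hM : m1 + m2 + m3 + m4 = M)
    (hb : m1 * x1 + m2 * x2 + m3 * x3 + m4 * x4 = M * b) :
    ConvexOrder (pt M b) (pt m1 x1 + pt m2 x2 + pt m3 x3 + pt m4 x4) := by
  have h := convexOrder_pt (Finset.univ : Finset (Fin 4)) ![m1, m2, m3, m4] ![x1, x2, x3, x4]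
    (by intro i _; fin_cases i <;> simpa) M b (by simpa [Fin.sum_univ_four] using hM)
    (by simpa [Fin.sum_univ_four] using hb)
  simpa [Fin.sum_univ_four] using h

/-- `isCurtain_three` with `x1 = z (k+1) < x2 = z k < x3 = 3`,
`κ1 = pt (pL k) (-1) + pt (1/6) 1 + pt (rL k) 2`,
`κ2 = pt (1/6) (-2) + pt (qR k) (-1) + pt (vR k) 2 + pt (uR k) 3`,
`κ3 = pt (1 - a k - a (k+1)) 3` (`(dirac x).prod (pt m y) = pt2 m x y`).
Sum: `pL + qR = 1/6`, `rL + vR = 1/6`, `uR + (1 - a k - a (k+1)) = 1/3` (`ENNReal.ofReal_add`).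
Shadows: `s1` is `isShadow_interval` with `l = -1`, `r = 2`: `κ1 ≤ fin` is carried by `[-1, 2]` and
both have mass `1/6` at `1` and nothing else in `(-1, 2)`; `s2` is `isShadow_interval` with
`l = -3`, `r = 3`: `fin = κ1 + κ2 + κ3` and `κ3` is carried by `{3}`. Convex orders:
`convexOrder_pt` with `left_mass`, `left_bary`, `right_mass`, `right_bary`, and
`ConvexOrder.add`. -/
theorem isCurtain_fin (k : ℕ) : IsCurtain (stg k) fin (cFin k) := by
  have hz1 : z (k + 1) < z k := z_strictAnti (Nat.lt_succ_self k)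
  have hz2 : z k < 3 := lt_of_le_of_lt (z_le k) (by norm_num)
  have hr : 0 ≤ 1 - a k - a (k + 1) := rest_nonneg k
  set κ1 : Measure ℝ := pt (pL k) (-1) + pt (1 / 6) 1 + pt (rL k) 2 with hκ1
  set κ2 : Measure ℝ := pt (1 / 6) (-2) + pt (qR k) (-1) + pt (vR k) 2 + pt (uR k) 3 with hκ2
  set κ3 : Measure ℝ := pt (1 - a k - a (k + 1)) 3 with hκ3
  have hsum : κ1 + κ2 + κ3 = fin := by
    have e1 : pt (1 / 6) (-1) = pt (pL k) (-1) + pt (qR k) (-1) := by
      rw [← pt_add (pL_pos k).le (qR_pos k).le, pL_eq]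
      congr 1
      ring
    have e2 : pt (1 / 6) 2 = pt (rL k) 2 + pt (vR k) 2 := by
      rw [← pt_add (rL_pos k).le (vR_pos k).le, vR_eq]
      congr 1
      ring
    have e3 : pt (1 / 3) 3 = pt (uR k) 3 + pt (1 - a k - a (k + 1)) 3 := by
      rw [← pt_add (uR_pos k).le hr]
      congr 1
      unfold uR
      ring
    unfold fin
    rw [e1, e2, e3, hκ1, hκ2, hκ3]
    abel
  have h1 : ConvexOrder (pt (a (k + 1)) (z (k + 1))) κ1 :=
    convexOrder_pt_three (pL_pos k).le (by norm_num) (rL_pos k).le (left_mass k) (left_bary k)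
  have h2 : ConvexOrder (pt (a k) (z k)) κ2 :=
    convexOrder_pt_four (by norm_num) (qR_pos k).le (vR_pos k).le (uR_pos k).le (right_mass k)
      (right_bary k)
  have hle1 : κ1 ≤ fin := by
    rw [← hsum, add_assoc]
    exact le_add_self' _ _
  have hle12 : κ1 + κ2 ≤ fin := by
    rw [← hsum]
    exact le_add_self' _ _
  have hfin : IsFiniteMeasure fin := by
    rw [← hsum]
    infer_instance
  have hint : Integrable (fun x : ℝ => x) fin := by
    unfold fin
    exact ((((integrable_pt _ _ _).add_measure (integrable_pt _ _ _)).add_measure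
      (integrable_pt _ _ _)).add_measure (integrable_pt _ _ _)).add_measure
      (integrable_pt _ _ _)
  have s1 : IsShadow fin (pt (a (k + 1)) (z (k + 1))) κ1 := by
    refine isShadow_interval (l := -1) (r := 2) (by norm_num) hint hle1 h1 ?_ ?_
    · have hm : MeasurableSet (Icc (-1 : ℝ) 2)ᶜ := measurableSet_Icc.compl
      rw [hκ1, Measure.add_apply, Measure.add_apply, pt_apply_zero hm (by norm_num),
        pt_apply_zero hm (by norm_num), pt_apply_zero hm (by norm_num)]
      simp
    · have hm : MeasurableSet (Ioo (-1 : ℝ) 2) := measurableSet_Ioo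
      have e1 : κ1.restrict (Ioo (-1) 2) = pt (1 / 6) 1 := by
        rw [hκ1, Measure.restrict_add, Measure.restrict_add,
          pt_restrict_of_notMem hm (by simp), pt_restrict_of_mem hm (by norm_num),
          pt_restrict_of_notMem hm (by simp)]
        simp
      have e2 : fin.restrict (Ioo (-1) 2) = pt (1 / 6) 1 := by
        unfold fin
        rw [Measure.restrict_add, Measure.restrict_add, Measure.restrict_add,
          Measure.restrict_add, pt_restrict_of_notMem hm (by norm_num),
          pt_restrict_of_notMem hm (by norm_num), pt_restrict_of_mem hm (by norm_num),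
          pt_restrict_of_notMem hm (by norm_num), pt_restrict_of_notMem hm (by norm_num)]
        simp
      rw [e1, e2]
  have s2 : IsShadow fin (pt (a (k + 1)) (z (k + 1)) + pt (a k) (z k)) (κ1 + κ2) := by
    refine isShadow_interval (l := -3) (r := 3) (by norm_num) hint hle12 (h1.add h2) ?_ ?_
    · have hm : MeasurableSet (Icc (-3 : ℝ) 3)ᶜ := measurableSet_Icc.compl
      rw [hκ1, hκ2]
      simp only [Measure.add_apply]
      rw [pt_apply_zero hm (by norm_num), pt_apply_zero hm (by norm_num),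
        pt_apply_zero hm (by norm_num), pt_apply_zero hm (by norm_num),
        pt_apply_zero hm (by norm_num), pt_apply_zero hm (by norm_num),
        pt_apply_zero hm (by norm_num)]
      simp
    · rw [← hsum, Measure.restrict_add (κ1 + κ2) κ3, hκ3,
        pt_restrict_of_notMem measurableSet_Ioo (by simp), add_zero]
  have key := isCurtain_three hz1 hz2 (m3 := 1 - a k - a (k + 1)) h1 h2
    convexOrder_pt_self s1 s2 hsum
  have e1 : (Measure.dirac (z (k + 1))).prod κ1 + (Measure.dirac (z k)).prod κ2 +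
      (Measure.dirac (3 : ℝ)).prod (pt (1 - a k - a (k + 1)) 3) = cFin k := by
    unfold cFin
    rw [hκ1, hκ2]
    simp only [Measure.prod_add, dirac_prod_pt]
  rw [e1] at key
  exact key

end Pool.Agent.T2H73.LC
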