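import Pool.Agent.T2H73.LC.Three

/-!
# Package CS: the coupling of two consecutive stages
-/

set_option autoImplicit false

namespace Pool.Agent.T2H73.LC

open MeasureTheory Filter Topology Set
open scoped ENNReal

theorem dirac_prod_pt (x m y : ℝ) : (Measure.dirac x).prod (pt m y) = pt2 m x y := by
  unfold pt pt2
  rw [Measure.prod_smul_right, Measure.dirac_prod_dirac]

theorem pt_add {m m' : ℝ} (hm : 0 ≤ m) (hm' : 0 ≤ m') (x : ℝ) :
    pt (m + m') x = pt m x + pt m' x := by
  unfold pt
  rw [ENNReal.ofReal_add hm hm', add_smul]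

theorem pt_apply_zero {m x : ℝ} {A : Set ℝ} (hA : MeasurableSet A) (hx : x ∉ A) :
    pt m x A = 0 := by
  unfold pt
  rw [Measure.smul_apply, Measure.dirac_apply' _ hA, indicator_of_notMem hx, smul_zero]

theorem le_add_self' (α β : Measure ℝ) : α ≤ α + β := by
  intro s
  rw [Measure.add_apply]
  exact le_self_add

/-- one target -/
theorem convexOrder_pt_self {m x : ℝ} : ConvexOrder (pt m x) (pt m x) :=
  ConvexOrder.refl (integrable_pt _ _ _)

/-- two targets -/
theorem convexOrder_pt_two {M b m1 x1 m2 x2 : ℝ} (h1 : 0 ≤ m1) (h2 : 0 ≤ m2)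
    (hM : m1 + m2 = M) (hb : m1 * x1 + m2 * x2 = M * b) :
    ConvexOrder (pt M b) (pt m1 x1 + pt m2 x2) := by
  have h := convexOrder_pt (Finset.univ : Finset (Fin 2)) ![m1, m2] ![x1, x2]
    (by intro i _; fin_cases i <;> simpa) M b (by simpa [Fin.sum_univ_two] using hM)
    (by simpa [Fin.sum_univ_two] using hb)
  simpa [Fin.sum_univ_two] using h

/-- `isCurtain_three` with `x1 = z (k+1) < x2 = z k < x3 = 3`, `κ1 = pt (a (k+1)) (z (k+1))`,
`κ2 = pt (a (k+2)) (z (k+2)) + pt (a k - a (k+2)) 3`, `κ3 = pt (1 - a k - a (k+1)) 3`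
(`(dirac x).prod (pt m y) = pt2 m x y`). Shadows: `s1` is `isShadow_self` (`κ1 ≤ stg (k+1)`); `s2`
is `isShadow_interval` with `l = 0`, `r = 3`: `κ1 + κ2` and `stg (k+1)` coincide on `(0, 3)`, the
difference `stg (k+1) - (κ1 + κ2)` is `κ3` (use `(1 - a (k+1) - a (k+2)) =
(a k - a (k+2)) + (1 - a k - a (k+1))`, `ENNReal.ofReal_add`). Convex orders: `convexOrder_pt`
with `a_mul`. -/
theorem isCurtain_step (k : ℕ) : IsCurtain (stg k) (stg (k + 1)) (cStep k) := by
  have hz1 : z (k + 1) < z k := z_strictAnti (Nat.lt_succ_self k)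
  have hz2 : z k < 3 := lt_of_le_of_lt (z_le k) (by norm_num)
  have hd : 0 ≤ a k - a (k + 2) := sub_nonneg.2 (a_anti.antitone (by omega))
  have hr : 0 ≤ 1 - a k - a (k + 1) := rest_nonneg k
  set κ1 : Measure ℝ := pt (a (k + 1)) (z (k + 1)) with hκ1
  set κ2 : Measure ℝ := pt (a (k + 2)) (z (k + 2)) + pt (a k - a (k + 2)) 3 with hκ2
  set κ3 : Measure ℝ := pt (1 - a k - a (k + 1)) 3 with hκ3
  have hsum : κ1 + κ2 + κ3 = stg (k + 1) := by
    have e : 1 - a (k + 1) - a (k + 1 + 1) = (a k - a (k + 2)) + (1 - a k - a (k + 1)) := by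
      ring_nf
    unfold stg
    rw [e, pt_add hd hr, hκ1, hκ2, hκ3]
    have : k + 1 + 1 = k + 2 := rfl
    rw [this]
    abel
  have h2 : ConvexOrder (pt (a k) (z k)) κ2 := by
    refine convexOrder_pt_two (a_pos _).le hd (by ring) ?_
    have e1 := a_mul k
    have e2 := a_mul (k + 2)
    linarith
  have s1 : IsShadow (stg (k + 1)) κ1 κ1 := by
    refine isShadow_self ?_ convexOrder_pt_self
    rw [← hsum, add_assoc]
    exact le_add_self' _ _
  have hle12 : κ1 + κ2 ≤ stg (k + 1) := by
    rw [← hsum]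
    exact le_add_self' _ _
  have hfin : IsFiniteMeasure (stg (k + 1)) := by
    rw [← hsum]
    infer_instance
  have hint : Integrable (fun x : ℝ => x) (stg (k + 1)) := by
    rw [← hsum]
    exact ((integrable_pt _ _ _).add_measure
      ((integrable_pt _ _ _).add_measure (integrable_pt _ _ _))).add_measure
      (integrable_pt _ _ _)
  have s2 : IsShadow (stg (k + 1)) (κ1 + pt (a k) (z k)) (κ1 + κ2) := by
    refine isShadow_interval (l := 0) (r := 3) (by norm_num) hint hle12
      (convexOrder_pt_self.add h2) ?_ ?_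
    · have hm : MeasurableSet (Icc (0 : ℝ) 3)ᶜ := measurableSet_Icc.compl
      rw [hκ1, hκ2, Measure.add_apply, Measure.add_apply, pt_apply_zero hm, pt_apply_zero hm,
        pt_apply_zero hm]
      · simp
      · simp
      · simp only [mem_compl_iff, mem_Icc, not_and, not_le, not_forall, not_lt]
        exact ⟨(z_pos _).le, (z_le _).trans (by norm_num)⟩
      · simp only [mem_compl_iff, mem_Icc, not_and, not_le, not_forall, not_lt]
        exact ⟨(z_pos _).le, (z_le _).trans (by norm_num)⟩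
    · rw [← hsum, Measure.restrict_add (κ1 + κ2) κ3, hκ3,
        pt_restrict_of_notMem measurableSet_Ioo (by simp), add_zero]
  have key := isCurtain_three hz1 hz2 (m3 := 1 - a k - a (k + 1)) convexOrder_pt_self h2
    convexOrder_pt_self s1 s2 hsum
  have e1 : (Measure.dirac (z (k + 1))).prod (pt (a (k + 1)) (z (k + 1))) +
      (Measure.dirac (z k)).prod κ2 +
      (Measure.dirac (3 : ℝ)).prod (pt (1 - a k - a (k + 1)) 3) = cStep k := by
    unfold cStep
    rw [hκ2, Measure.prod_add, dirac_prod_pt, dirac_prod_pt, dirac_prod_pt, dirac_prod_pt]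
  rw [e1] at key
  exact key

end Pool.Agent.T2H73.LC
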