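import Pool.Agent.T2H73.LC.Paths

/-!
# Package CV: weak convergence of `R K` along a parity class
-/

set_option autoImplicit false

namespace Pool.Agent.T2H73.LC

open MeasureTheory Filter Topology Set
open scoped ENNReal

/-- The surviving paths converge uniformly: `|pos c (min j K) - pos c j| ≤ z K`. Use
`tendsto_of_uniform`. -/
theorem tendsto_surv (c : ℕ) (e : ℝ) :
    Tendsto (fun K => surv K c e) atTop (𝓝 (survI c e)) := by
  apply tendsto_of_uniform
  intro ε hε
  filter_upwards [tendsto_z.eventually (ge_mem_nhds hε)] with K hK u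
  have key : ∀ j, |ySurv K c j - pos c j| ≤ z K := by
    intro j
    unfold ySurv
    by_cases hj : j ≤ K
    · rw [min_eq_left hj, sub_self, abs_zero]
      exact (z_pos K).le
    · rw [min_eq_right (by omega)]
      have h1 := pos_pos c K
      have h2 := pos_pos c j
      have h3 := pos_le c K
      have h4 := pos_le c j
      have h5 : z j ≤ z K := z_strictAnti.antitone (by omega)
      rw [abs_le]
      constructor <;> linarith
  have e1 : (surv K c e).1 u = pathFun (ySurv K c) e u := rfl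
  have e2 : (survI c e).1 u = pathFun (pos c) e u := rfl
  change |(surv K c e).1 u - (survI c e).1 u| ≤ ε
  rw [e1, e2]
  unfold pathFun
  split_ifs with h
  · exact (key _).trans hK
  · rw [sub_self, abs_zero]
    exact hε.le

/-- The sum of the weights of the leaks is `a 0 + a 1 - 2/3` (telescoping; `tendsto_a`). -/
theorem hasSum_leak : HasSum (fun k => a k - a (k + 2)) (a 0 + a 1 - 2 / 3) := by
  rw [hasSum_iff_tendsto_nat_of_nonneg]
  · have h1 : ∀ n, ∑ k ∈ Finset.range n, (a k - a (k + 2)) = a 0 + a 1 - (a n + a (n + 1)) := by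
      intro n
      induction n with
      | zero => simp
      | succ n ih =>
        rw [Finset.sum_range_succ, ih]
        ring
    simp only [h1]
    have h2 : Tendsto (fun n => a n + a (n + 1)) atTop (𝓝 (1 / 3 + 1 / 3)) :=
      tendsto_a.add (tendsto_a.comp (tendsto_add_atTop_nat 1))
    have h3 := h2.const_sub (a 0 + a 1)
    have e : (a 0 + a 1 - 2 / 3 : ℝ) = a 0 + a 1 - (1 / 3 + 1 / 3) := by ring
    rw [e]
    exact h3
  · intro k
    exact sub_nonneg.2 (a_anti.antitone (by omega))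

theorem leak_nonneg (k : ℕ) : 0 ≤ a k - a (k + 2) := sub_nonneg.2 (a_anti.antitone (by omega))

theorem pd_univ (m : ℝ) (ω : D) : pd m ω univ = ENNReal.ofReal m := by
  unfold pd
  rw [Measure.smul_apply, measure_univ, smul_eq_mul, mul_one]

/-- `PI c` is a probability measure: `(1 - a 0 - a 1) + (a 0 + a 1 - 2/3) + 4/6 = 1`. -/
theorem isProbabilityMeasure_PI (c : ℕ) : IsProbabilityMeasure (PI c) := by
  refine ⟨?_⟩
  have h1 : Measure.sum (fun k => pd (a k - a (k + 2)) (leak k)) univ =
      ENNReal.ofReal (a 0 + a 1 - 2 / 3) := by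
    rw [Measure.sum_apply _ MeasurableSet.univ]
    simp only [pd_univ]
    rw [← ENNReal.ofReal_tsum_of_nonneg leak_nonneg hasSum_leak.summable, hasSum_leak.tsum_eq]
  have h2 := a_gt 0
  have h3 := a_gt 1
  have h4 := rest_nonneg 0
  simp only [zero_add] at h4
  unfold PI
  simp only [Measure.add_apply, h1, pd_univ]
  rw [← ENNReal.ofReal_add h4 (by linarith), ← ENNReal.ofReal_add (by norm_num) (by norm_num),
    ← ENNReal.ofReal_add (by linarith) (by norm_num), ← ENNReal.ofReal_add (by linarith) (by norm_num)]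
  rw [ENNReal.ofReal_eq_one]
  ring

section

attribute [local instance] measurableSingletonClass_D

theorem integrable_pd (m : ℝ) (ω : D) (Φ : D → ℝ) : Integrable Φ (pd m ω) := by
  unfold pd
  exact (integrable_dirac (by simp)).smul_measure ENNReal.ofReal_ne_top

theorem integral_pd {m : ℝ} (hm : 0 ≤ m) (ω : D) (Φ : D → ℝ) : ∫ x, Φ x ∂(pd m ω) = m * Φ ω := by
  unfold pd
  rw [integral_smul_measure, integral_dirac, ENNReal.toReal_ofReal hm, smul_eq_mul]

theorem integrable_sum_leak (Φ : D → ℝ) (hb : ∃ C, ∀ ω, |Φ ω| ≤ C) :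
    Integrable Φ (Measure.sum (fun k => pd (a k - a (k + 2)) (leak k))) := by
  obtain ⟨C, hC⟩ := hb
  apply integrable_sum_measure (fun k => integrable_pd _ _ _)
  have h1 : ∀ k, ∫ x, ‖Φ x‖ ∂(pd (a k - a (k + 2)) (leak k)) = (a k - a (k + 2)) * ‖Φ (leak k)‖ :=
    fun k => integral_pd (leak_nonneg k) _ _
  simp only [h1]
  refine Summable.of_nonneg_of_le (fun k => mul_nonneg (leak_nonneg k) (norm_nonneg _))
    (fun k => ?_) (hasSum_leak.summable.mul_right C)
  exact mul_le_mul_of_nonneg_left (hC _) (leak_nonneg k)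

theorem hasSum_int_leak (Φ : D → ℝ) (hb : ∃ C, ∀ ω, |Φ ω| ≤ C) :
    HasSum (fun k => (a k - a (k + 2)) * Φ (leak k))
      (∫ x, Φ x ∂(Measure.sum (fun k => pd (a k - a (k + 2)) (leak k)))) := by
  have h := hasSum_integral_measure (integrable_sum_leak Φ hb)
  simpa only [integral_pd (leak_nonneg _)] using h

theorem integral_R (K : ℕ) (Φ : D → ℝ) : ∫ ω, Φ ω ∂(R K) =
    ((1 - a 0 - a 1) * Φ top + ∑ k ∈ Finset.range K, (a k - a (k + 2)) * Φ (leak k)) +
      (pL K * Φ (surv K (K + 1) (-1)) + 1 / 6 * Φ (surv K (K + 1) 1) +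
        rL K * Φ (surv K (K + 1) 2)) +
      (1 / 6 * Φ (surv K K (-2)) + qR K * Φ (surv K K (-1)) + vR K * Φ (surv K K 2) +
        uR K * Φ (surv K K 3)) := by
  have hi := fun m ω => integrable_pd m ω Φ
  have hs : Integrable Φ (∑ k ∈ Finset.range K, pd (a k - a (k + 2)) (leak k)) :=
    integrable_finsetSum_measure.2 fun k _ => hi _ _
  have h0 := rest_nonneg 0
  simp only [zero_add] at h0
  unfold R R0
  rw [integral_add_measure (((hi _ _).add_measure hs).add_measure
      (((hi _ _).add_measure (hi _ _)).add_measure (hi _ _)))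
      ((((hi _ _).add_measure (hi _ _)).add_measure (hi _ _)).add_measure (hi _ _)),
    integral_add_measure ((hi _ _).add_measure hs)
      (((hi _ _).add_measure (hi _ _)).add_measure (hi _ _)),
    integral_add_measure (hi _ _) hs,
    integral_add_measure ((hi _ _).add_measure (hi _ _)) (hi _ _),
    integral_add_measure (hi _ _) (hi _ _),
    integral_add_measure (((hi _ _).add_measure (hi _ _)).add_measure (hi _ _)) (hi _ _),
    integral_add_measure ((hi _ _).add_measure (hi _ _)) (hi _ _),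
    integral_add_measure (hi _ _) (hi _ _),
    integral_finsetSum_measure (fun k _ => hi _ _)]
  rw [integral_pd h0, integral_pd (pL_pos K).le, integral_pd (by norm_num : (0:ℝ) ≤ 1 / 6),
    integral_pd (rL_pos K).le, integral_pd (by norm_num : (0:ℝ) ≤ 1 / 6),
    integral_pd (qR_pos K).le, integral_pd (vR_pos K).le, integral_pd (uR_pos K).le]
  simp only [integral_pd (leak_nonneg _)]

theorem integral_PI (c : ℕ) (Φ : D → ℝ) (hb : ∃ C, ∀ ω, |Φ ω| ≤ C) : ∫ ω, Φ ω ∂(PI c) =
    ((1 - a 0 - a 1) * Φ top + ∫ x, Φ x ∂(Measure.sum (fun k => pd (a k - a (k + 2)) (leak k)))) +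
      (1 / 6 * Φ (survI (c + 1) (-1)) + 1 / 6 * Φ (survI (c + 1) 1)) +
      (1 / 6 * Φ (survI c (-2)) + 1 / 6 * Φ (survI c 2)) := by
  have hi := fun m ω => integrable_pd m ω Φ
  have hs := integrable_sum_leak Φ hb
  have h0 := rest_nonneg 0
  simp only [zero_add] at h0
  unfold PI
  rw [integral_add_measure (((hi _ _).add_measure hs).add_measure ((hi _ _).add_measure (hi _ _)))
      ((hi _ _).add_measure (hi _ _)),
    integral_add_measure ((hi _ _).add_measure hs) ((hi _ _).add_measure (hi _ _)),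
    integral_add_measure (hi _ _) hs, integral_add_measure (hi _ _) (hi _ _),
    integral_add_measure (hi _ _) (hi _ _)]
  rw [integral_pd h0]
  simp only [integral_pd (by norm_num : (0:ℝ) ≤ 1 / 6)]

end

theorem tendsto_qR : Tendsto qR atTop (𝓝 0) := by
  have h1 : Tendsto (fun k => z (k + 1)) atTop (𝓝 0) := tendsto_z.comp (tendsto_add_atTop_nat 1)
  have h2 : Tendsto (fun k => 9 * (3 - z (k + 1))) atTop (𝓝 (9 * (3 - 0))) :=
    (h1.const_sub 3).const_mul 9
  have h3 := h1.div h2 (by norm_num)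
  rw [zero_div] at h3
  exact h3

theorem tendsto_rL : Tendsto rL atTop (𝓝 0) := by
  have h := tendsto_qR.const_mul 4
  rw [mul_zero] at h
  refine h.congr fun k => ?_
  unfold qR rL
  ring

theorem tendsto_pL : Tendsto pL atTop (𝓝 (1 / 6)) := by
  have h := tendsto_qR.const_sub (1 / 6)
  rw [sub_zero] at h
  exact h.congr fun k => (pL_eq k).symm

theorem tendsto_vR : Tendsto vR atTop (𝓝 (1 / 6)) := by
  have h := tendsto_rL.const_sub (1 / 6)
  rw [sub_zero] at h
  exact h.congr fun k => (vR_eq k).symm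

theorem tendsto_uR : Tendsto uR atTop (𝓝 0) := by
  have h := (tendsto_a.add (tendsto_a.comp (tendsto_add_atTop_nat 1))).sub_const (2 / 3)
  have e : (1 / 3 + 1 / 3 - 2 / 3 : ℝ) = 0 := by norm_num
  rw [e] at h
  exact h

/-- Weak convergence. With `MeasurableSingletonClass D` (`measurableSingletonClass_D`) the integral
of every `Φ` with respect to `pd m ω` is `m Φ ω` (`m ≥ 0`; `integral_dirac`,
`integrable_dirac`), so
`∫ Φ dR_K = (1 - a 0 - a 1) Φ top + ∑_{k<K} (a k - a (k+2)) Φ (leak k) + ...` and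
`∫ Φ dPI_c = (1 - a 0 - a 1) Φ top + ∑' k, (a k - a (k+2)) Φ (leak k) + ...`
(`hasSum_integral_measure`; `Φ` bounded). The partial sums converge (`HasSum.tendsto_sum_nat`), and
for `K = 2 p + c` the final terms converge: `surv K (K+1) e = surv K (c+1) e`,
`surv K K e = surv K c e` (`surv_congr`), `Φ (surv K c e) → Φ (survI c e)` (`tendsto_surv`),
`pL K → 1/6`, `rL K → 0`, `qR K → 0`, `vR K → 1/6`, `uR K → 0` (`tendsto_z`, `tendsto_a`), `Φ`
bounded. -/
theorem tendsto_R (c : ℕ) (Φ : D → ℝ) (hΦ : Continuous Φ) (hb : ∃ C, ∀ ω, |Φ ω| ≤ C) :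
    Tendsto (fun p => ∫ ω, Φ ω ∂(R (2 * p + c))) atTop (𝓝 (∫ ω, Φ ω ∂(PI c))) := by
  have hK : Tendsto (fun p : ℕ => 2 * p + c) atTop atTop :=
    tendsto_atTop_mono (fun p => by simp only [id]; omega) tendsto_id
  rw [integral_PI c Φ hb]
  have hsv : ∀ (d : ℕ) (e : ℝ), Tendsto (fun p : ℕ => Φ (surv (2 * p + c) d e)) atTop
      (𝓝 (Φ (survI d e))) := fun d e => (hΦ.tendsto _).comp ((tendsto_surv d e).comp hK)
  have e1 : ∀ (p : ℕ) (e : ℝ), surv (2 * p + c) (2 * p + c + 1) e = surv (2 * p + c) (c + 1) e :=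
    fun p e => surv_congr _ (by omega) e
  have e2 : ∀ (p : ℕ) (e : ℝ), surv (2 * p + c) (2 * p + c) e = surv (2 * p + c) c e :=
    fun p e => surv_congr _ (by omega) e
  simp only [integral_R, e1, e2]
  have t1 := (hasSum_int_leak Φ hb).tendsto_sum_nat.comp hK
  have t2 := ((tendsto_pL.comp hK).mul (hsv (c + 1) (-1))).add
    ((hsv (c + 1) 1).const_mul (1 / 6)) |>.add ((tendsto_rL.comp hK).mul (hsv (c + 1) 2))
  have t3 := ((hsv c (-2)).const_mul (1 / 6)).add ((tendsto_qR.comp hK).mul (hsv c (-1))) |>.add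
    ((tendsto_vR.comp hK).mul (hsv c 2)) |>.add ((tendsto_uR.comp hK).mul (hsv c 3))
  have t4 := ((t1.const_add ((1 - a 0 - a 1) * Φ top)).add t2).add t3
  simp only [zero_mul, add_zero] at t4
  exact t4

end Pool.Agent.T2H73.LC
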