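import Mathlib

/-!
# Limit curtain processes of a peacock (MP_eb43e0_pr): definitions
-/

set_option autoImplicit false

namespace Pool.Agent.T2H73.LC

open MeasureTheory Filter Topology Set
open scoped ENNReal

/-- The time set `[0, 1]`. -/
abbrev T : Type := Set.Icc (0 : ℝ) 1

/-! ## Measures on the line -/

/-- `α ≤_c η`: the convex order between finite measures of equal mass with finite first moment.
(A convex `f` which is not `η`-integrable has `∫ f dη = ∞`; a convex `f` which is not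
`α`-integrable has `∫ f dα = ∞`.) -/
structure ConvexOrder (α η : Measure ℝ) : Prop where
  fin : IsFiniteMeasure α
  fin' : IsFiniteMeasure η
  mass : α univ = η univ
  mom : Integrable (fun x : ℝ => x) α
  mom' : Integrable (fun x : ℝ => x) η
  le : ∀ f : ℝ → ℝ, ConvexOn ℝ univ f → Integrable f η →
    Integrable f α ∧ ∫ x, f x ∂α ≤ ∫ x, f x ∂η

/-- The Kantorovich distance. -/
noncomputable def kantorovich (μ ν : Measure ℝ) : ℝ≥0∞ :=
  ⨅ (π : Measure (ℝ × ℝ)) (_ : π.map Prod.fst = μ) (_ : π.map Prod.snd = ν),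
    ∫⁻ p, edist p.1 p.2 ∂π

/-- A peacock: probability measures with finite first moment, increasing in convex order. -/
structure IsPeacock (μ : T → Measure ℝ) : Prop where
  prob : ∀ t, IsProbabilityMeasure (μ t)
  mom : ∀ t, Integrable (fun x : ℝ => x) (μ t)
  mono : ∀ s t, s ≤ t → ConvexOrder (μ s) (μ t)

/-- Right-continuity for the Kantorovich distance. -/
def RightContinuous (μ : T → Measure ℝ) : Prop :=
  ∀ t, Tendsto (fun s => kantorovich (μ s) (μ t)) (𝓝[≥] t) (𝓝 0)

/-- A martingale coupling of `μ` and `ν`: the law of `(X, Y)` with marginals `μ`, `ν` and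
`E (Y | X) = X`, that is `E (Y; X ∈ A) = E (X; X ∈ A)` for all Borel sets `A`. -/
structure IsMartCoupling (μ ν : Measure ℝ) (π : Measure (ℝ × ℝ)) : Prop where
  fst : π.map Prod.fst = μ
  snd : π.map Prod.snd = ν
  int_fst : Integrable (fun p : ℝ × ℝ => p.1) π
  int_snd : Integrable (fun p : ℝ × ℝ => p.2) π
  mart : ∀ A : Set ℝ, MeasurableSet A →
    ∫ p in Prod.fst ⁻¹' A, p.2 ∂π = ∫ p in Prod.fst ⁻¹' A, p.1 ∂π

/-- `η` is the shadow of `α` in `ν`: the smallest measure (in convex order) among all `η ≤ ν` with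
`α ≤_c η`. -/
structure IsShadow (ν α η : Measure ℝ) : Prop where
  le : η ≤ ν
  ord : ConvexOrder α η
  min : ∀ η' : Measure ℝ, η' ≤ ν → ConvexOrder α η' → ConvexOrder η η'

/-- `π` is the left-curtain coupling of `μ` and `ν`: the martingale coupling such that, for every
`x`, the restriction of `π` to `(-∞, x] × ℝ` has the marginals `μ|_{(-∞, x]}` and
`S^ν (μ|_{(-∞, x]})`. -/
structure IsCurtain (μ ν : Measure ℝ) (π : Measure (ℝ × ℝ)) : Prop where
  coupling : IsMartCoupling μ ν π
  fst : ∀ x : ℝ, (π.restrict (Iic x ×ˢ univ)).map Prod.fst = μ.restrict (Iic x)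
  shadow : ∀ x : ℝ,
    IsShadow ν (μ.restrict (Iic x)) ((π.restrict (Iic x ×ˢ univ)).map Prod.snd)

/-! ## The Skorokhod space -/

/-- `f` is right-continuous with left limits. -/
def IsCadlag (f : T → ℝ) : Prop :=
  ∀ u, ContinuousWithinAt f (Set.Ici u) u ∧ ∃ l, Tendsto f (𝓝[<] u) (𝓝 l)

/-- The Skorokhod space `D([0, 1])`. -/
def D : Type := {f : T → ℝ // IsCadlag f}

instance : CoeFun D (fun _ => T → ℝ) := ⟨Subtype.val⟩

/-- The σ-algebra generated by the coordinates (it is the Borel σ-algebra of the Skorokhod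
topology). -/
instance : MeasurableSpace D :=
  ⨆ t : T, MeasurableSpace.comap (fun ω : D => ω t) inferInstance

/-- The open ball of radius `ε` around `f` for the Skorokhod distance: the paths `g` such that for
some increasing bijection `τ` of `[0, 1]`, `τ` is `ε`-close to the identity and `g ∘ τ` is
`ε`-close to `f`. -/
def skBall (f : D) (ε : ℝ) : Set D :=
  {g | ∃ τ : T ≃o T, ∃ δ < ε, ∀ u, |(τ u : ℝ) - u| ≤ δ ∧ |g (τ u) - f u| ≤ δ}

/-- The Skorokhod topology. -/
instance : TopologicalSpace D where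
  IsOpen U := ∀ f ∈ U, ∃ ε > 0, skBall f ε ⊆ U
  isOpen_univ := fun _ _ => ⟨1, one_pos, subset_univ _⟩
  isOpen_inter := by
    intro U V hU hV f hf
    obtain ⟨ε, hε, h1⟩ := hU f hf.1
    obtain ⟨ε', hε', h2⟩ := hV f hf.2
    refine ⟨min ε ε', lt_min hε hε', fun g hg => ?_⟩
    obtain ⟨τ, δ, hδ, h⟩ := hg
    exact ⟨h1 ⟨τ, δ, lt_of_lt_of_le hδ (min_le_left _ _), h⟩,
      h2 ⟨τ, δ, lt_of_lt_of_le hδ (min_le_right _ _), h⟩⟩
  isOpen_sUnion := by
    intro S hS f hf
    obtain ⟨U, hU, hfU⟩ := hf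
    obtain ⟨ε, hε, h⟩ := hS U hU f hfU
    exact ⟨ε, hε, h.trans (subset_sUnion_of_mem hU)⟩

/-! ## Markov processes on `D([0, 1])` -/

/-- The σ-algebra generated by the canonical process up to time `s`. -/
@[reducible] def past (s : T) : MeasurableSpace D :=
  ⨆ r : {r : T // r ≤ s}, MeasurableSpace.comap (fun ω : D => ω r.1) inferInstance

/-- The σ-algebra generated by the canonical process at time `s`. -/
@[reducible] def present (s : T) : MeasurableSpace D :=
  MeasurableSpace.comap (fun ω : D => ω s) inferInstance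

/-- The canonical process is a Markov process under `P`. -/
def IsMarkov (P : Measure D) : Prop :=
  ∀ s t : T, s ≤ t → ∀ f : ℝ → ℝ, Measurable f → (∃ C, ∀ x, |f x| ≤ C) →
    P[fun ω : D => f (ω t) | past s] =ᵐ[P] P[fun ω : D => f (ω t) | present s]

/-! ## Partitions and the laws `P^{μ,σ}` -/

/-- A partition `0 = t_0 < ... < t_Q = 1`. -/
structure Partition where
  Q : ℕ
  t : Fin (Q + 1) → T
  strictMono : StrictMono t
  zero : t 0 = ⟨0, by norm_num⟩
  one : t (Fin.last Q) = ⟨1, by norm_num⟩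

/-- The mesh of a partition. -/
noncomputable def Partition.mesh (σ : Partition) : ℝ :=
  ⨆ k : Fin σ.Q, ((σ.t k.succ : ℝ) - σ.t k.castSucc)

/-- `P` is the law `P^{μ,σ}`: the canonical process is Markov, almost surely constant on each
`[t_k, t_{k+1})`, and `law (X_{t_k}, X_{t_{k+1}})` is the left-curtain coupling of `μ_{t_k}` and
`μ_{t_{k+1}}`. -/
structure IsCurtLaw (μ : T → Measure ℝ) (σ : Partition) (P : Measure D) : Prop where
  prob : IsProbabilityMeasure P
  markov : IsMarkov P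
  const : ∀ᵐ ω ∂P, ∀ k : Fin σ.Q, ∀ t : T, σ.t k.castSucc ≤ t → t < σ.t k.succ →
    ω t = ω (σ.t k.castSucc)
  law : ∀ k : Fin σ.Q, IsCurtain (μ (σ.t k.castSucc)) (μ (σ.t k.succ))
    (P.map fun ω : D => (ω (σ.t k.castSucc), ω (σ.t k.succ)))

/-- `LimCurt([μ])`: the weak limits, for the Skorokhod topology, of sequences `P^{μ,σ_p}` along
sequences of partitions whose mesh tends to `0`. -/
def LimCurt (μ : T → Measure ℝ) : Set (Measure D) :=
  {P | IsProbabilityMeasure P ∧ ∃ (σ : ℕ → Partition) (R : ℕ → Measure D),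
    Tendsto (fun p => (σ p).mesh) atTop (𝓝 0) ∧ (∀ p, IsCurtLaw μ (σ p) (R p)) ∧
    ∀ Φ : D → ℝ, Continuous Φ → (∃ C, ∀ ω, |Φ ω| ≤ C) →
      Tendsto (fun p => ∫ ω, Φ ω ∂(R p)) atTop (𝓝 (∫ ω, Φ ω ∂P))}

end Pool.Agent.T2H73.LC
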