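import Pool.Agent.T2H73.LC.Paths

/-!
# Package LW: the laws of `(X_s, X_t)` under `R K`

`Measure.map` of `pd m ω` by the evaluation at `(s, t)` is `pt2 m (ω s) (ω t)` (`measurable_eval`);
`ω s = y (stage s)` if `s < 1/2` and `= e` if `s ≥ 1/2`.
-/

set_option autoImplicit false

namespace Pool.Agent.T2H73.LC

open MeasureTheory Filter Topology Set
open scoped ENNReal

/-- **Consistency.** For `i ≤ j ≤ K` put
`V K = pt2 (1 - a 0 - a 1) 3 3 + ∑_{k < K} pt2 (a k - a (k+2)) (yLeak k i) (yLeak k j)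
+ pt2 (a (K+1)) (pos (K+1) i) (pos (K+1) j) + pt2 (a K) (pos K i) (pos K j)`. Then
`V (K+1) = V K` for `K ≥ j`, as `yLeak K i = pos K i = pos (K+2) i` for `i ≤ K` and
`ofReal (a K - a (K+2)) + ofReal (a (K+2)) = ofReal (a K)`; so `V K = V j`. -/
noncomputable def V (K i j : ℕ) : Measure (ℝ × ℝ) :=
  pt2 (1 - a 0 - a 1) 3 3 +
    ∑ k ∈ Finset.range K, pt2 (a k - a (k + 2)) (yLeak k i) (yLeak k j) +
    pt2 (a (K + 1)) (pos (K + 1) i) (pos (K + 1) j) + pt2 (a K) (pos K i) (pos K j)

theorem pt2_add {m m' : ℝ} (hm : 0 ≤ m) (hm' : 0 ≤ m') (x y : ℝ) :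
    pt2 m x y + pt2 m' x y = pt2 (m + m') x y := by
  unfold pt2
  rw [ENNReal.ofReal_add hm hm', add_smul]

theorem diff_nonneg (k : ℕ) : 0 ≤ a k - a (k + 2) :=
  sub_nonneg.2 (a_anti.antitone (by omega))

theorem pos_add_two (c j : ℕ) : pos (c + 2) j = pos c j := pos_congr (by omega) j

theorem V_succ {K i j : ℕ} (hi : i ≤ j) (hj : j ≤ K) : V (K + 1) i j = V K i j := by
  unfold V
  rw [Finset.sum_range_succ]
  have e1 : yLeak K i = pos K i := by unfold yLeak; rw [if_pos (by omega)]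
  have e2 : yLeak K j = pos K j := by unfold yLeak; rw [if_pos (by omega)]
  have e3 : pos (K + 1 + 1) i = pos K i := pos_add_two K i
  have e4 : pos (K + 1 + 1) j = pos K j := pos_add_two K j
  rw [e1, e2, e3, e4]
  have e5 : pt2 (a K) (pos K i) (pos K j) = pt2 (a K - a (K + 2)) (pos K i) (pos K j) +
      pt2 (a (K + 1 + 1)) (pos K i) (pos K j) := by
    rw [pt2_add (diff_nonneg K) (a_pos _).le]
    congr 1
    show a K = a K - a (K + 2) + a (K + 2)
    ring
  rw [e5]
  abel

theorem V_eq {K i j : ℕ} (hi : i ≤ j) (hj : j ≤ K) : V K i j = V j i j := by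
  induction K, hj using Nat.le_induction with
  | base => rfl
  | succ K hK ih => rw [V_succ hi hK, ih]

theorem measurable_pair (s t : T) : Measurable (fun ω : D => (ω s, ω t)) :=
  (measurable_eval s).prodMk (measurable_eval t)

theorem map_pd (m : ℝ) (ω : D) (s t : T) :
    (pd m ω).map (fun ω : D => (ω s, ω t)) = pt2 m (ω s) (ω t) := by
  unfold pd pt2
  rw [Measure.map_smul, Measure.map_dirac' (measurable_pair s t)]

theorem map_sum' {ι : Type} (S : Finset ι) (m : ι → Measure D) (s t : T) :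
    (∑ i ∈ S, m i).map (fun ω : D => (ω s, ω t)) =
      ∑ i ∈ S, (m i).map (fun ω : D => (ω s, ω t)) := by
  classical
  induction S using Finset.induction_on with
  | empty => simp
  | insert i S hi ih =>
    rw [Finset.sum_insert hi, Finset.sum_insert hi, Measure.map_add _ _ (measurable_pair s t), ih]

theorem pathFun_lt (y : ℕ → ℝ) (e : ℝ) {s : T} (hs : (s : ℝ) < 1 / 2) :
    pathFun y e s = y (stage s) := if_pos hs

theorem pathFun_ge (y : ℕ → ℝ) (e : ℝ) {s : T} (hs : 1 / 2 ≤ (s : ℝ)) :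
    pathFun y e s = e := if_neg (not_lt.2 hs)

theorem top_val (s : T) : top s = pathFun (fun _ => 3) 3 s := rfl

theorem leak_val (k : ℕ) (s : T) : leak k s = pathFun (yLeak k) 3 s := rfl

theorem surv_val (K c : ℕ) (e : ℝ) (s : T) : surv K c e s = pathFun (ySurv K c) e s := rfl

theorem survI_val (c : ℕ) (e : ℝ) (s : T) : survI c e s = pathFun (pos c) e s := rfl

theorem map_R (K : ℕ) (s t : T) : (R K).map (fun ω : D => (ω s, ω t)) =
    pt2 (1 - a 0 - a 1) (top s) (top t) +
      ∑ k ∈ Finset.range K, pt2 (a k - a (k + 2)) (leak k s) (leak k t) +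
    (pt2 (pL K) (surv K (K + 1) (-1) s) (surv K (K + 1) (-1) t) +
      pt2 (1 / 6) (surv K (K + 1) 1 s) (surv K (K + 1) 1 t) +
      pt2 (rL K) (surv K (K + 1) 2 s) (surv K (K + 1) 2 t)) +
    (pt2 (1 / 6) (surv K K (-2) s) (surv K K (-2) t) +
      pt2 (qR K) (surv K K (-1) s) (surv K K (-1) t) +
      pt2 (vR K) (surv K K 2 s) (surv K K 2 t) +
      pt2 (uR K) (surv K K 3 s) (surv K K 3 t)) := by
  have hm := measurable_pair s t
  unfold R R0
  simp only [Measure.map_add _ _ hm, map_pd, map_sum']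

/-- `R K` has the two-dimensional laws `V K i j` before time `1/2` (the four, three final weights
of each particle add up by `left_mass`, `right_mass`). -/
theorem map_R_eq_V (K : ℕ) (s t : T) (hs : (s : ℝ) < 1 / 2) (ht : (t : ℝ) < 1 / 2)
    (hsK : stage s ≤ K) (htK : stage t ≤ K) :
    (R K).map (fun ω : D => (ω s, ω t)) = V K (stage s) (stage t) := by
  rw [map_R]
  simp only [top_val, leak_val, surv_val, pathFun_lt _ _ hs, pathFun_lt _ _ ht]
  unfold ySurv
  rw [min_eq_left hsK, min_eq_left htK]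
  rw [pt2_add (pL_pos K).le (by norm_num), pt2_add (by linarith [pL_pos K]) (rL_pos K).le,
    left_mass, pt2_add (by norm_num) (qR_pos K).le, pt2_add (by linarith [qR_pos K]) (vR_pos K).le,
    pt2_add (by linarith [qR_pos K, vR_pos K]) (uR_pos K).le, right_mass]
  rfl

theorem sum_rest (j : ℕ) (x y : ℝ) :
    pt2 (1 - a 0 - a 1) x y + ∑ k ∈ Finset.range j, pt2 (a k - a (k + 2)) x y =
      pt2 (1 - a j - a (j + 1)) x y := by
  induction j with
  | zero => simp
  | succ j ih =>
    rw [Finset.sum_range_succ, ← add_assoc, ih, pt2_add (rest_nonneg j) (diff_nonneg j)]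
    congr 1
    show 1 - a j - a (j + 1) + (a j - a (j + 2)) = 1 - a (j + 1) - a (j + 2)
    ring

theorem yLeak_of_lt {k j : ℕ} (h : k < j) : yLeak k j = 3 := by
  unfold yLeak
  rw [if_neg (by omega)]

theorem map_pt_diag (m x : ℝ) : (pt m x).map (fun x => (x, x)) = pt2 m x x := by
  unfold pt pt2
  rw [Measure.map_smul, Measure.map_dirac' (by fun_prop)]

theorem measurable_diag : Measurable (fun x : ℝ => (x, x)) := by fun_prop

/-- `V j j j` is the identity coupling of `stg j` (all leaks `k < j` are at `3`: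
telescoping sum of the weights). -/
theorem V_diag (j : ℕ) : V j j j = (stg j).map (fun x => (x, x)) := by
  have hm := measurable_diag
  unfold V stg
  simp only [Measure.map_add _ _ hm, map_pt_diag]
  have e : ∑ k ∈ Finset.range j, pt2 (a k - a (k + 2)) (yLeak k j) (yLeak k j) =
      ∑ k ∈ Finset.range j, pt2 (a k - a (k + 2)) 3 3 :=
    Finset.sum_congr rfl fun k hk => by rw [yLeak_of_lt (Finset.mem_range.1 hk)]
  rw [e, sum_rest, pos_self, pos_succ_self]
  abel

/-- `V (j+1) j (j+1) = cStep j`: the leaks `k < j` are at `(3, 3)`, the leak `j` is at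
`(z j, 3)`; `pos (j+2) j = z j`, `pos (j+1) j = z (j+1) = pos (j+1) (j+1)`,
`pos (j+2) (j+1) = z (j+2)`. -/
theorem V_step (j : ℕ) : V (j + 1) j (j + 1) = cStep j := by
  unfold V cStep
  have e : ∑ k ∈ Finset.range j, pt2 (a k - a (k + 2)) (yLeak k j) (yLeak k (j + 1)) =
      ∑ k ∈ Finset.range j, pt2 (a k - a (k + 2)) 3 3 :=
    Finset.sum_congr rfl fun k hk => by
      rw [yLeak_of_lt (Finset.mem_range.1 hk),
        yLeak_of_lt ((Finset.mem_range.1 hk).trans (Nat.lt_succ_self j))]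
  have e1 : yLeak j j = z j := by
    unfold yLeak
    rw [if_pos le_rfl, pos_self]
  have e2 : yLeak j (j + 1) = 3 := yLeak_of_lt (Nat.lt_succ_self j)
  have e3 : pos (j + 1 + 1) j = z j := by rw [pos_add_two, pos_self]
  have e4 : pos (j + 1 + 1) (j + 1) = z (j + 2) := pos_succ_self (j + 1)
  rw [Finset.sum_range_succ, e, e1, e2, e3, e4, pos_succ_self, pos_self, ← add_assoc, sum_rest]
  have : j + 1 + 1 = j + 2 := rfl
  rw [this]
  abel

/-- The last step. -/
theorem map_R_last (K : ℕ) (s t : T) (hs : (s : ℝ) < 1 / 2) (hsK : stage s = K)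
    (ht : 1 / 2 ≤ (t : ℝ)) : (R K).map (fun ω : D => (ω s, ω t)) = cFin K := by
  rw [map_R]
  simp only [top_val, leak_val, surv_val, pathFun_lt _ _ hs, pathFun_ge _ _ ht, hsK]
  have e : ∑ k ∈ Finset.range K, pt2 (a k - a (k + 2)) (yLeak k K) 3 =
      ∑ k ∈ Finset.range K, pt2 (a k - a (k + 2)) 3 3 :=
    Finset.sum_congr rfl fun k hk => by rw [yLeak_of_lt (Finset.mem_range.1 hk)]
  unfold ySurv
  rw [e, sum_rest, min_self, pos_succ_self, pos_self]
  unfold cFin
  abel

/-- After time `1/2`. -/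
theorem map_R_final (K : ℕ) (s t : T) (hs : 1 / 2 ≤ (s : ℝ)) (ht : 1 / 2 ≤ (t : ℝ)) :
    (R K).map (fun ω : D => (ω s, ω t)) = fin.map (fun x => (x, x)) := by
  rw [map_R]
  simp only [top_val, leak_val, surv_val, pathFun_ge _ _ hs, pathFun_ge _ _ ht]
  rw [sum_rest]
  have hm := measurable_diag
  unfold fin
  simp only [Measure.map_add _ _ hm, map_pt_diag]
  have e1 : pt2 (1 / 6) (-1) (-1) = pt2 (pL K) (-1) (-1) + pt2 (qR K) (-1) (-1) := by
    rw [pt2_add (pL_pos K).le (qR_pos K).le, pL_eq]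
    congr 1
    ring
  have e2 : pt2 (1 / 6) 2 2 = pt2 (rL K) 2 2 + pt2 (vR K) 2 2 := by
    rw [pt2_add (rL_pos K).le (vR_pos K).le, vR_eq]
    congr 1
    ring
  have e3 : pt2 (1 / 3) 3 3 = pt2 (uR K) 3 3 + pt2 (1 - a K - a (K + 1)) 3 3 := by
    rw [pt2_add (uR_pos K).le (rest_nonneg K)]
    congr 1
    unfold uR
    ring
  rw [e1, e2, e3]
  abel

theorem fin_univ : fin univ = 1 := by
  unfold fin pt
  simp only [Measure.coe_add, Pi.add_apply, Measure.smul_apply, measure_univ, smul_eq_mul,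
    mul_one]
  rw [← ENNReal.ofReal_add (by norm_num) (by norm_num),
    ← ENNReal.ofReal_add (by norm_num) (by norm_num),
    ← ENNReal.ofReal_add (by norm_num) (by norm_num),
    ← ENNReal.ofReal_add (by norm_num) (by norm_num)]
  norm_num

/-- Total mass (e.g. from `map_R_final`: `fin` has mass `4 * (1/6) + 1/3 = 1`). -/
theorem isProbabilityMeasure_R (K : ℕ) : IsProbabilityMeasure (R K) := by
  refine ⟨?_⟩
  set t1 : T := ⟨1, by norm_num⟩
  have h1 : 1 / 2 ≤ (t1 : ℝ) := by
    show (1 : ℝ) / 2 ≤ 1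
    norm_num
  have h := map_R_final K t1 t1 h1 h1
  have h2 : (R K).map (fun ω : D => (ω t1, ω t1)) univ = R K univ := by
    rw [Measure.map_apply (measurable_pair t1 t1) MeasurableSet.univ, preimage_univ]
  rw [← h2, h, Measure.map_apply measurable_diag MeasurableSet.univ, preimage_univ, fin_univ]

end Pool.Agent.T2H73.LC
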