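import Pool.Agent.T2H73.LC.Defs

/-!
# Package MK: a criterion for the Markov property
-/

set_option autoImplicit false

namespace Pool.Agent.T2H73.LC

open MeasureTheory Filter Topology Set
open scoped ENNReal

theorem past_le (s : T) : past s ≤ (inferInstance : MeasurableSpace D) :=
  iSup_le fun r =>
    le_iSup (fun t : T => MeasurableSpace.comap (fun ω : D => ω t) inferInstance) r.1

theorem present_le_past (s : T) : present s ≤ past s :=
  le_iSup (fun r : {r : T // r ≤ s} =>
    MeasurableSpace.comap (fun ω : D => ω r.1) inferInstance) ⟨s, le_refl s⟩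

theorem present_le (s : T) : present s ≤ (inferInstance : MeasurableSpace D) :=
  (present_le_past s).trans (past_le s)

/-- the sets which coincide on `C`, almost surely, with a set of `m` -/
@[reducible] def approxSpace (P : Measure D) (m : MeasurableSpace D) (C : Set D) :
    MeasurableSpace D where
  MeasurableSet' A := ∃ B, MeasurableSet[m] B ∧ ∀ᵐ ω ∂P, ω ∈ C → (ω ∈ A ↔ ω ∈ B)
  measurableSet_empty := ⟨∅, @MeasurableSet.empty _ m, by simp⟩
  measurableSet_compl := by
    rintro A ⟨B, hB, h⟩
    refine ⟨Bᶜ, hB.compl, ?_⟩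
    filter_upwards [h] with ω hω hC
    simp only [mem_compl_iff, hω hC]
  measurableSet_iUnion := by
    intro A hA
    choose B hB h using hA
    refine ⟨⋃ i, B i, MeasurableSet.iUnion hB, ?_⟩
    filter_upwards [ae_all_iff.2 h] with ω hω hC
    simp only [mem_iUnion, hω _ hC]

/-- **Criterion.** Suppose that for all `s ≤ t` there is a Borel set `E` such that, almost surely,
on `{X_s ∈ E}` every `X_r`, `r ≤ s`, is a function of `X_s`, and on `{X_s ∉ E}` the value `X_t` is
a function of `X_s`. Then the canonical process is Markov. -/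
theorem isMarkov_of (P : Measure D) [IsProbabilityMeasure P]
    (h : ∀ s t : T, s ≤ t → ∃ E : Set ℝ, MeasurableSet E ∧
      (∀ r : T, r ≤ s → ∃ g : ℝ → ℝ, Measurable g ∧ ∀ᵐ ω ∂P, ω s ∈ E → ω r = g (ω s)) ∧
      (∃ g : ℝ → ℝ, Measurable g ∧ ∀ᵐ ω ∂P, ω s ∉ E → ω t = g (ω s))) :
    IsMarkov P := by
  intro s t hst f hf hfb
  obtain ⟨E, hE, h1, g, hg, h2⟩ := h s t hst
  obtain ⟨K, hK⟩ := hfb
  have hXs : Measurable[present s] (fun ω : D => ω s) := comap_measurable _
  have hXt : Measurable (fun ω : D => ω t) := by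
    have h3 : Measurable[present t] (fun ω : D => ω t) := comap_measurable _
    exact h3.mono (present_le t) le_rfl
  set C : Set D := {ω | ω s ∈ E} with hCdef
  have hC : MeasurableSet[present s] C := hXs hE
  have hC0 : MeasurableSet C := present_le s _ hC
  set Y : D → ℝ := fun ω => f (ω t) with hY
  have hYm : Measurable Y := hf.comp hXt
  have hYi : Integrable Y P :=
    Integrable.of_bound hYm.aestronglyMeasurable K
      (Eventually.of_forall fun ω => by rw [Real.norm_eq_abs]; exact hK _)
  -- on the complement of `C`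
  set Z : D → ℝ := Cᶜ.indicator (fun ω => f (g (ω s))) with hZ
  have hZm : Measurable[present s] Z := by
    apply Measurable.indicator _ hC.compl
    exact (hf.comp hg).comp hXs
  have hZi : Integrable Z P := by
    refine Integrable.of_bound (hZm.mono (present_le s) le_rfl).aestronglyMeasurable K
      (Eventually.of_forall fun ω => ?_)
    rw [Real.norm_eq_abs, hZ]
    by_cases hω : ω ∈ Cᶜ
    · rw [indicator_of_mem hω]
      exact hK _
    · rw [indicator_of_notMem hω, abs_zero]
      exact (abs_nonneg _).trans (hK 0)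
  have hYZ : Cᶜ.indicator Y =ᵐ[P] Z := by
    filter_upwards [h2] with ω hω
    by_cases hc : ω ∈ Cᶜ
    · rw [hZ, indicator_of_mem hc, indicator_of_mem hc, hY]
      show f (ω t) = f (g (ω s))
      rw [hω hc]
    · rw [hZ, indicator_of_notMem hc, indicator_of_notMem hc]
  have hGC : ∀ᵐ ω ∂P, ω ∈ Cᶜ → (P[Y | present s]) ω = Y ω := by
    have e1 := condExp_indicator (m := present s) hYi hC.compl
    have e2 : P[Cᶜ.indicator Y | present s] =ᵐ[P] P[Z | present s] := condExp_congr_ae hYZ
    have e3 : P[Z | present s] = Z :=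
      condExp_of_stronglyMeasurable (present_le s) hZm.stronglyMeasurable hZi
    filter_upwards [e1, e2, hYZ] with ω h3 h4 h5 hω
    rw [h3, e3, ← h5, indicator_of_mem hω, indicator_of_mem hω] at h4
    exact h4
  symm
  refine ae_eq_condExp_of_forall_setIntegral_eq (past_le s) hYi
    (fun _ _ _ => integrable_condExp.integrableOn) ?_
    ((stronglyMeasurable_condExp.mono (present_le_past s)).aestronglyMeasurable)
  intro A hA _
  have hA0 : MeasurableSet A := past_le s _ hA
  -- approximation on `C`
  have hap : past s ≤ approxSpace P (present s) C := by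
    refine iSup_le fun r => ?_
    rintro U ⟨V, hV, rfl⟩
    obtain ⟨g', hg', h3⟩ := h1 r.1 r.2
    refine ⟨(fun ω : D => ω s) ⁻¹' (g' ⁻¹' V), hXs (hg' hV), ?_⟩
    filter_upwards [h3] with ω hω hc
    simp only [mem_preimage, hω hc]
  obtain ⟨B, hB, hAB⟩ := hap _ hA
  have hB0 : MeasurableSet B := present_le s _ hB
  have hsets : (A ∩ C : Set D) =ᵐ[P] (B ∩ C : Set D) := by
    filter_upwards [hAB] with ω hω
    apply propext
    constructor
    · rintro ⟨ha, hc⟩
      exact ⟨(hω hc).1 ha, hc⟩
    · rintro ⟨hb, hc⟩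
      exact ⟨(hω hc).2 hb, hc⟩
  have part1 : ∫ ω in A ∩ C, (P[Y | present s]) ω ∂P = ∫ ω in A ∩ C, Y ω ∂P := by
    rw [setIntegral_congr_set hsets, setIntegral_congr_set hsets]
    exact setIntegral_condExp (present_le s) hYi (hB.inter hC)
  have part2 : ∫ ω in A \ C, (P[Y | present s]) ω ∂P = ∫ ω in A \ C, Y ω ∂P := by
    refine setIntegral_congr_ae (hA0.diff hC0) ?_
    filter_upwards [hGC] with ω hω hm
    exact hω hm.2
  rw [← integral_inter_add_sdiff hC0 integrable_condExp.integrableOn,
    ← integral_inter_add_sdiff hC0 hYi.integrableOn, part1, part2]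

end Pool.Agent.T2H73.LC
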