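import Pool.Agent.T2H73.LC.Paths
import Pool.Agent.T2H73.LC.Markov

/-!
# Package MR: the laws `R K` and `PI c` are Markov
-/

set_option autoImplicit false

namespace Pool.Agent.T2H73.LC

open MeasureTheory Filter Topology Set
open scoped ENNReal

namespace MR

theorem ae_pd {p : D → Prop} (m : ℝ) {ω : D} (h : p ω) : ∀ᵐ ω' ∂(pd m ω), p ω' := by
  have := measurableSingletonClass_D
  unfold pd
  refine Measure.ae_smul_measure ?_ _
  rw [ae_dirac_eq]
  exact h

theorem ae_add' {p : D → Prop} {μ ν : Measure D} (h1 : ∀ᵐ ω ∂μ, p ω) (h2 : ∀ᵐ ω ∂ν, p ω) :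
    ∀ᵐ ω ∂(μ + ν), p ω := ae_add_measure_iff.2 ⟨h1, h2⟩

end MR

open MR

/-- Almost surely under `R K` the path is the top, a leak or a survivor. (All singletons are
measurable, `measurableSingletonClass_D`; the complement of this set of paths, which is countable,
has measure `0` for every `pd`.) -/
theorem ae_R (K : ℕ) : ∀ᵐ ω ∂(R K), ω = top ∨ (∃ k < K, ω = leak k) ∨
    (∃ c e, ω = surv K c e) := by
  have hs : ∀ (m : ℝ) (c : ℕ) (e : ℝ), ∀ᵐ ω ∂(pd m (surv K c e)),
      ω = top ∨ (∃ k < K, ω = leak k) ∨ (∃ c e, ω = surv K c e) := fun m c e =>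
    ae_pd m (p := fun ω => ω = top ∨ (∃ k < K, ω = leak k) ∨ (∃ c e, ω = surv K c e))
      (Or.inr (Or.inr ⟨c, e, rfl⟩))
  unfold R R0
  refine ae_add' (ae_add' (ae_add' ?_ ?_) (ae_add' (ae_add' ?_ ?_) ?_))
    (ae_add' (ae_add' (ae_add' ?_ ?_) ?_) ?_)
  · exact ae_pd _ (p := fun ω => ω = top ∨ (∃ k < K, ω = leak k) ∨ (∃ c e, ω = surv K c e))
      (Or.inl rfl)
  · refine Finset.sum_induction _ (fun μ : Measure D => ∀ᵐ ω ∂μ, ω = top ∨ (∃ k < K, ω = leak k) ∨
      (∃ c e, ω = surv K c e)) (fun μ ν h1 h2 => ae_add' h1 h2) (by simp) fun k hk => ?_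
    exact ae_pd _ (p := fun ω => ω = top ∨ (∃ k < K, ω = leak k) ∨ (∃ c e, ω = surv K c e))
      (Or.inr (Or.inl ⟨k, Finset.mem_range.1 hk, rfl⟩))
  all_goals exact hs _ _ _

theorem ae_PI (c : ℕ) : ∀ᵐ ω ∂(PI c), ω = top ∨ (∃ k, ω = leak k) ∨
    (∃ c' e, ω = survI c' e) := by
  have hs : ∀ (m : ℝ) (c : ℕ) (e : ℝ), ∀ᵐ ω ∂(pd m (survI c e)),
      ω = top ∨ (∃ k, ω = leak k) ∨ (∃ c' e, ω = survI c' e) := fun m c e =>
    ae_pd m (p := fun ω => ω = top ∨ (∃ k, ω = leak k) ∨ (∃ c' e, ω = survI c' e))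
      (Or.inr (Or.inr ⟨c, e, rfl⟩))
  unfold PI
  refine ae_add' (ae_add' (ae_add' ?_ ?_) (ae_add' ?_ ?_)) (ae_add' ?_ ?_)
  · exact ae_pd _ (p := fun ω => ω = top ∨ (∃ k, ω = leak k) ∨ (∃ c' e, ω = survI c' e))
      (Or.inl rfl)
  · rw [Measure.ae_sum_iff]
    intro k
    exact ae_pd _ (p := fun ω => ω = top ∨ (∃ k, ω = leak k) ∨ (∃ c' e, ω = survI c' e))
      (Or.inr (Or.inl ⟨k, rfl⟩))
  all_goals exact hs _ _ _

namespace MR

theorem top_apply (s : T) : top s = 3 := by
  change pathFun (fun _ => 3) 3 s = 3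
  unfold pathFun
  split_ifs <;> rfl

theorem leak_lt (k : ℕ) {s : T} (hs : (s : ℝ) < 1 / 2) : leak k s = yLeak k (stage s) := by
  change pathFun (yLeak k) 3 s = _
  unfold pathFun
  rw [if_pos hs]

theorem leak_ge (k : ℕ) {s : T} (hs : ¬ (s : ℝ) < 1 / 2) : leak k s = 3 := by
  change pathFun (yLeak k) 3 s = _
  unfold pathFun
  rw [if_neg hs]

theorem surv_lt (K c : ℕ) (e : ℝ) {s : T} (hs : (s : ℝ) < 1 / 2) :
    surv K c e s = pos c (min (stage s) K) := by
  change pathFun (ySurv K c) e s = _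
  unfold pathFun
  rw [if_pos hs]
  rfl

theorem surv_ge (K c : ℕ) (e : ℝ) {s : T} (hs : ¬ (s : ℝ) < 1 / 2) : surv K c e s = e := by
  change pathFun (ySurv K c) e s = _
  unfold pathFun
  rw [if_neg hs]

theorem survI_lt (c : ℕ) (e : ℝ) {s : T} (hs : (s : ℝ) < 1 / 2) :
    survI c e s = pos c (stage s) := by
  change pathFun (pos c) e s = _
  unfold pathFun
  rw [if_pos hs]

theorem survI_ge (c : ℕ) (e : ℝ) {s : T} (hs : ¬ (s : ℝ) < 1 / 2) : survI c e s = e := by
  change pathFun (pos c) e s = _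
  unfold pathFun
  rw [if_neg hs]

/-- the parity of the particle is a function of its position -/
noncomputable def gpos (j i : ℕ) (x : ℝ) : ℝ := if x = z j then pos j i else pos (j + 1) i

theorem gpos_meas (j i : ℕ) : Measurable (gpos j i) := by
  unfold gpos
  exact Measurable.ite (measurableSet_singleton (z j)) measurable_const measurable_const

theorem gpos_pos (c j i : ℕ) : pos c i = gpos j i (pos c j) := by
  unfold gpos
  by_cases h : (j + c) % 2 = 0
  · have h1 : pos c j = z j := by unfold pos; rw [h, add_zero]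
    rw [if_pos h1]
    exact pos_congr (by omega) i
  · have h1 : pos c j = z (j + 1) := by
      unfold pos
      rw [show (j + c) % 2 = 1 by omega]
    have h2 : pos c j ≠ z j := by
      rw [h1]
      exact (z_strictAnti (Nat.lt_succ_self j)).ne
    rw [if_neg h2]
    exact pos_congr (by omega) i

theorem leak_three {k : ℕ} {s t : T} (hst : s ≤ t) (h : leak k s = 3) : leak k t = 3 := by
  by_cases ht : (t : ℝ) < 1 / 2
  · have hst' : (s : ℝ) ≤ t := hst
    have hs : (s : ℝ) < 1 / 2 := lt_of_le_of_lt hst' ht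
    rw [leak_lt k hs] at h
    rw [leak_lt k ht]
    unfold yLeak at h ⊢
    split_ifs at h with h1
    · exact absurd h (pos_lt_three _ _).ne
    · have := stage_mono s.2.1 hst' ht
      rw [if_neg (by omega)]
  · exact leak_ge k ht

theorem leak_not_three {k : ℕ} {s : T} (h : leak k s ≠ 3) : (s : ℝ) < 1 / 2 ∧ stage s ≤ k := by
  by_cases hs : (s : ℝ) < 1 / 2
  · refine ⟨hs, ?_⟩
    rw [leak_lt k hs] at h
    unfold yLeak at h
    by_contra h1
    rw [if_neg h1] at h
    exact h rfl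
  · exact absurd (leak_ge k hs) h

end MR

/-- `isMarkov_of`. If `s ≥ 1/2` take `E = ∅`: `ω t = ω s` for `t ≥ s`. If `s < 1/2`, in stage `j`,
take `E = {3}ᶜ`. If `ω s = 3` then `ω` is the top or a leak `k < j`, and `ω t = 3` for `t ≥ s`
(positions `pos c i` are `< 3`). If `ω s ≠ 3` then `ω` is a leak `k ≥ j` or a survivor, and
`ω r = pos c i` for all `r ≤ s` in stage `i` (under `R K`: `pos c (min i K)`), where the parity of
`c` is a function of `ω s = pos c j`: `z j` if `c ≡ j`, `z (j+1)` otherwise (`z` is injective). So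
`g x = if x = z j' then pos j' i' else pos (j'+1) i'` with `j' = min j K`, `i' = min i K`. -/
theorem isMarkov_R (K : ℕ) [IsProbabilityMeasure (R K)] : IsMarkov (R K) := by
  refine isMarkov_of (R K) fun s t hst => ?_
  have hst' : (s : ℝ) ≤ t := hst
  by_cases hs : (s : ℝ) < 1 / 2
  · refine ⟨{3}ᶜ, (measurableSet_singleton _).compl, fun r hr => ?_, ?_⟩
    · have hr' : (r : ℝ) ≤ s := hr
      have hr2 : (r : ℝ) < 1 / 2 := lt_of_le_of_lt hr' hs
      have hst := stage_mono r.2.1 hr' hs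
      refine ⟨gpos (min (stage s) K) (min (stage r) K), gpos_meas _ _, ?_⟩
      filter_upwards [ae_R K] with ω hω h3
      have h3' : ω s ≠ 3 := h3
      rcases hω with rfl | ⟨k, hk, rfl⟩ | ⟨c, e, rfl⟩
      · exact absurd (top_apply s) h3'
      · have h4 := (leak_not_three h3').2
        rw [leak_lt k hr2, leak_lt k hs]
        unfold yLeak
        rw [if_pos (by omega), if_pos h4, min_eq_left (by omega), min_eq_left (by omega)]
        exact gpos_pos _ _ _
      · rw [surv_lt K c e hr2, surv_lt K c e hs]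
        exact gpos_pos _ _ _
    · refine ⟨fun _ => 3, measurable_const, ?_⟩
      filter_upwards [ae_R K] with ω hω h3
      have h3' : ω s = 3 := by
        by_contra h
        exact h3 h
      rcases hω with rfl | ⟨k, hk, rfl⟩ | ⟨c, e, rfl⟩
      · exact top_apply t
      · exact leak_three hst h3'
      · rw [surv_lt K c e hs] at h3'
        exact absurd h3' (pos_lt_three _ _).ne
  · have ht : ¬ (t : ℝ) < 1 / 2 := fun h => hs (lt_of_le_of_lt hst' h)
    refine ⟨∅, MeasurableSet.empty, fun r _ => ⟨id, measurable_id, by simp⟩, id, measurable_id, ?_⟩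
    filter_upwards [ae_R K] with ω hω _
    rcases hω with rfl | ⟨k, hk, rfl⟩ | ⟨c, e, rfl⟩
    · rw [top_apply, top_apply]; rfl
    · rw [leak_ge k ht, leak_ge k hs]; rfl
    · rw [surv_ge K c e ht, surv_ge K c e hs]; rfl

theorem isMarkov_PI (c : ℕ) [IsProbabilityMeasure (PI c)] : IsMarkov (PI c) := by
  refine isMarkov_of (PI c) fun s t hst => ?_
  have hst' : (s : ℝ) ≤ t := hst
  by_cases hs : (s : ℝ) < 1 / 2
  · refine ⟨{3}ᶜ, (measurableSet_singleton _).compl, fun r hr => ?_, ?_⟩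
    · have hr' : (r : ℝ) ≤ s := hr
      have hr2 : (r : ℝ) < 1 / 2 := lt_of_le_of_lt hr' hs
      have hst := stage_mono r.2.1 hr' hs
      refine ⟨gpos (stage s) (stage r), gpos_meas _ _, ?_⟩
      filter_upwards [ae_PI c] with ω hω h3
      have h3' : ω s ≠ 3 := h3
      rcases hω with rfl | ⟨k, rfl⟩ | ⟨c, e, rfl⟩
      · exact absurd (top_apply s) h3'
      · have h4 := (leak_not_three h3').2
        rw [leak_lt k hr2, leak_lt k hs]
        unfold yLeak
        rw [if_pos (by omega), if_pos h4]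
        exact gpos_pos _ _ _
      · rw [survI_lt c e hr2, survI_lt c e hs]
        exact gpos_pos _ _ _
    · refine ⟨fun _ => 3, measurable_const, ?_⟩
      filter_upwards [ae_PI c] with ω hω h3
      have h3' : ω s = 3 := by
        by_contra h
        exact h3 h
      rcases hω with rfl | ⟨k, rfl⟩ | ⟨c, e, rfl⟩
      · exact top_apply t
      · exact leak_three hst h3'
      · rw [survI_lt c e hs] at h3'
        exact absurd h3' (pos_lt_three _ _).ne
  · have ht : ¬ (t : ℝ) < 1 / 2 := fun h => hs (lt_of_le_of_lt hst' h)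
    refine ⟨∅, MeasurableSet.empty, fun r _ => ⟨id, measurable_id, by simp⟩, id, measurable_id, ?_⟩
    filter_upwards [ae_PI c] with ω hω _
    rcases hω with rfl | ⟨k, rfl⟩ | ⟨c, e, rfl⟩
    · rw [top_apply, top_apply]; rfl
    · rw [leak_ge k ht, leak_ge k hs]; rfl
    · rw [survI_ge c e ht, survI_ge c e hs]; rfl

end Pool.Agent.T2H73.LC
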