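import Pool.Agent.T2H73.LC.Defs

/-!
# Package SP: the Skorokhod space
-/

set_option autoImplicit false

namespace Pool.Agent.T2H73.LC

open MeasureTheory Filter Topology Set
open scoped ENNReal

/-- By definition of the σ-algebra. -/
theorem measurable_eval (t : T) : Measurable (fun ω : D => ω t) :=
  measurable_iff_comap_le.2
    (le_iSup (fun t : T => MeasurableSpace.comap (fun ω : D => ω t) inferInstance) t)

/-- two càdlàg paths which agree on a dense set agree at every time `u < 1` -/
theorem eq_of_dense {S : Set T} (hS : Dense S) {ω ω' : D} (h : ∀ t ∈ S, ω t = ω' t) {u : T}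
    (hu : u < ⟨1, by norm_num⟩) : ω u = ω' u := by
  have h1 : u ∈ closure (Ioi u ∩ S) := by
    have h2 : u ∈ closure (Ioi u) := by
      have hne : (Ioi u).Nonempty := ⟨⟨1, by norm_num⟩, hu⟩
      rw [closure_Ioi' hne]
      exact self_mem_Ici
    have h3 : Ioi u ⊆ closure (Ioi u ∩ S) := hS.open_subset_closure_inter isOpen_Ioi
    exact closure_minimal h3 isClosed_closure h2
  haveI : (𝓝[Ioi u ∩ S] u).NeBot := mem_closure_iff_nhdsWithin_neBot.1 h1
  have hsub : Ioi u ∩ S ⊆ Ici u := fun v hv => mem_Ici.2 (le_of_lt (mem_Ioi.1 hv.1))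
  have t1 : Tendsto ω.1 (𝓝[Ioi u ∩ S] u) (𝓝 (ω u)) :=
    ((ω.2 u).1 : ContinuousWithinAt ω.1 (Ici u) u).mono hsub
  have t2 : Tendsto ω'.1 (𝓝[Ioi u ∩ S] u) (𝓝 (ω' u)) :=
    ((ω'.2 u).1 : ContinuousWithinAt ω'.1 (Ici u) u).mono hsub
  refine tendsto_nhds_unique (t1.congr' ?_) t2
  filter_upwards [self_mem_nhdsWithin] with v hv
  exact h v hv.2

/-- A càdlàg path on `[0, 1]` is determined by its values at the rational times and at time `1`
(right-continuity), hence `{ω}` is a countable intersection of the sets `{ω' | ω' q = ω q}`. -/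
theorem measurableSingletonClass_D : MeasurableSingletonClass D := by
  refine ⟨fun ω => ?_⟩
  obtain ⟨S, hSc, hSd⟩ := TopologicalSpace.exists_countable_dense T
  have hone : (1 : ℝ) ∈ Set.Icc (0 : ℝ) 1 := by norm_num
  have e : ({ω} : Set D) = ⋂ t ∈ insert (⟨1, hone⟩ : T) S, (fun ω' : D => ω' t) ⁻¹' {ω t} := by
    ext ω'
    simp only [mem_singleton_iff, mem_iInter, mem_preimage, mem_insert_iff, forall_eq_or_imp]
    constructor
    · rintro rfl
      exact ⟨rfl, fun _ _ => rfl⟩
    · rintro ⟨h1, h2⟩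
      apply Subtype.ext
      funext u
      rcases lt_or_eq_of_le (show u ≤ (⟨1, hone⟩ : T) from u.2.2) with hu | hu
      · exact eq_of_dense hSd (fun t ht => h2 t ht) hu
      · rw [hu]
        exact h1
  rw [e]
  exact MeasurableSet.biInter (hSc.insert _) fun t _ =>
    measurable_eval t (measurableSet_singleton _)

/-- Uniform convergence implies convergence in the Skorokhod topology: take `τ = id`
(`OrderIso.refl`) in `skBall`; use `tendsto_nhds`. -/
theorem tendsto_of_uniform (f : ℕ → D) (g : D)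
    (h : ∀ ε > 0, ∀ᶠ n in atTop, ∀ u, |f n u - g u| ≤ ε) : Tendsto f atTop (𝓝 g) := by
  rw [tendsto_nhds]
  intro s hs hg
  obtain ⟨ε, hε, hsub⟩ := hs g hg
  filter_upwards [h (ε / 2) (by linarith)] with n hn
  apply hsub
  refine ⟨OrderIso.refl T, ε / 2, by linarith, fun u => ⟨?_, hn u⟩⟩
  simp only [OrderIso.refl_apply, sub_self, abs_zero]
  linarith

end Pool.Agent.T2H73.LC
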