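import Pool.Agent.T2H73.LC.Model
import Pool.Agent.T2H73.LC.Space

/-!
# The path measures `R K` (laws `P^{μ,σ}` for the dyadic partitions) and their limits `PI c`
-/

set_option autoImplicit false

namespace Pool.Agent.T2H73.LC

open MeasureTheory Filter Topology Set
open scoped ENNReal

/-- The position, during stage `j`, of the particle whose positions `z i` have `i ≡ c (mod 2)`. -/
noncomputable def pos (c j : ℕ) : ℝ := z (j + (j + c) % 2)

theorem pos_pos (c j : ℕ) : 0 < pos c j := z_pos _

theorem pos_le (c j : ℕ) : pos c j ≤ z j := by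
  unfold pos
  exact z_strictAnti.antitone (Nat.le_add_right _ _)

theorem pos_lt_three (c j : ℕ) : pos c j < 3 := by
  unfold pos
  have := z_le (j + (j + c) % 2)
  linarith

theorem pos_congr {c c' : ℕ} (h : c % 2 = c' % 2) (j : ℕ) : pos c j = pos c' j := by
  unfold pos
  rw [Nat.add_mod j c, h, ← Nat.add_mod]

theorem pos_self (k : ℕ) : pos k k = z k := by
  unfold pos
  congr 1
  omega

theorem pos_succ_self (k : ℕ) : pos (k + 1) k = z (k + 1) := by
  unfold pos
  congr 1
  omega

theorem tendsto_pos (c : ℕ) : Tendsto (pos c) atTop (𝓝 0) :=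
  squeeze_zero (fun j => (pos_pos c j).le) (fun j => pos_le c j) tendsto_z

/-- The particle leaks at the end of stage `k` (when it is at `z k`). -/
noncomputable def yLeak (k j : ℕ) : ℝ := if j ≤ k then pos k j else 3

/-- The particle of parity `c` never leaks; it does not move after stage `K`. -/
noncomputable def ySurv (K c j : ℕ) : ℝ := pos c (min j K)

theorem conv_const (x : ℝ) : ∃ l, Tendsto (fun _ : ℕ => x) atTop (𝓝 l) :=
  ⟨x, tendsto_const_nhds⟩

theorem conv_yLeak (k : ℕ) : ∃ l, Tendsto (yLeak k) atTop (𝓝 l) := by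
  refine ⟨3, tendsto_const_nhds.congr' ?_⟩
  filter_upwards [eventually_gt_atTop k] with j hj
  unfold yLeak
  rw [if_neg (by omega)]

theorem conv_ySurv (K c : ℕ) : ∃ l, Tendsto (ySurv K c) atTop (𝓝 l) := by
  refine ⟨pos c K, tendsto_const_nhds.congr' ?_⟩
  filter_upwards [eventually_ge_atTop K] with j hj
  unfold ySurv
  rw [min_eq_right hj]

theorem conv_pos (c : ℕ) : ∃ l, Tendsto (pos c) atTop (𝓝 l) := ⟨0, tendsto_pos c⟩

/-- the path which is constant `3` -/
noncomputable def top : D := ⟨pathFun (fun _ => 3) 3, isCadlag_pathFun _ _ (conv_const 3)⟩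

noncomputable def leak (k : ℕ) : D := ⟨pathFun (yLeak k) 3, isCadlag_pathFun _ _ (conv_yLeak k)⟩

noncomputable def surv (K c : ℕ) (e : ℝ) : D :=
  ⟨pathFun (ySurv K c) e, isCadlag_pathFun _ _ (conv_ySurv K c)⟩

noncomputable def survI (c : ℕ) (e : ℝ) : D :=
  ⟨pathFun (pos c) e, isCadlag_pathFun _ _ (conv_pos c)⟩

theorem surv_congr (K : ℕ) {c c' : ℕ} (h : c % 2 = c' % 2) (e : ℝ) :
    surv K c e = surv K c' e := by
  have : ySurv K c = ySurv K c' := by
    funext j
    exact pos_congr h _
  unfold surv
  apply Subtype.ext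
  simp only [this]

theorem survI_congr {c c' : ℕ} (h : c % 2 = c' % 2) (e : ℝ) : survI c e = survI c' e := by
  have : pos c = pos c' := by
    funext j
    exact pos_congr h _
  unfold survI
  apply Subtype.ext
  simp only [this]

/-- mass `m` on the path `ω` -/
noncomputable def pd (m : ℝ) (ω : D) : Measure D := ENNReal.ofReal m • Measure.dirac ω

/-- the part before the last step: the top, the leaks -/
noncomputable def R0 (K : ℕ) : Measure D :=
  pd (1 - a 0 - a 1) top + ∑ k ∈ Finset.range K, pd (a k - a (k + 2)) (leak k)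

/-- `R K = P^{μ,σ}` for the dyadic partition `σ` with step `1/2^(K+1)` (whose last point before
`1/2` is `sT K`) -/
noncomputable def R (K : ℕ) : Measure D :=
  R0 K +
    (pd (pL K) (surv K (K + 1) (-1)) + pd (1 / 6) (surv K (K + 1) 1) +
      pd (rL K) (surv K (K + 1) 2)) +
    (pd (1 / 6) (surv K K (-2)) + pd (qR K) (surv K K (-1)) + pd (vR K) (surv K K 2) +
      pd (uR K) (surv K K 3))

/-- The limit along the `K ≡ c (mod 2)`: the surviving particle of parity `c + 1` ends at `±1`, the
one of parity `c` at `±2`. -/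
noncomputable def PI (c : ℕ) : Measure D :=
  pd (1 - a 0 - a 1) top + Measure.sum (fun k => pd (a k - a (k + 2)) (leak k)) +
    (pd (1 / 6) (survI (c + 1) (-1)) + pd (1 / 6) (survI (c + 1) 1)) +
    (pd (1 / 6) (survI c (-2)) + pd (1 / 6) (survI c 2))

end Pool.Agent.T2H73.LC
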