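import Pool.Agent.T2H73.LC.CStep
import Pool.Agent.T2H73.LC.CFin
import Pool.Agent.T2H73.LC.Paths
import Pool.Agent.T2H73.LC.Law

/-!
# Package PE: the peacock; the two limits are different
-/

set_option autoImplicit false

namespace Pool.Agent.T2H73.LC

open MeasureTheory Filter Topology Set
open scoped ENNReal

theorem isProbabilityMeasure_stg (k : ℕ) : IsProbabilityMeasure (stg k) := by
  refine ⟨?_⟩
  unfold stg
  simp only [Measure.coe_add, Pi.add_apply, pt_univ]
  rw [← ENNReal.ofReal_add (a_pos _).le (a_pos _).le,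
    ← ENNReal.ofReal_add (by linarith [a_pos k, a_pos (k + 1)]) (rest_nonneg k)]
  rw [show a (k + 1) + a k + (1 - a k - a (k + 1)) = 1 by ring, ENNReal.ofReal_one]

theorem isProbabilityMeasure_fin : IsProbabilityMeasure fin := ⟨fin_univ⟩

theorem integrable_stg (k : ℕ) : Integrable (fun x : ℝ => x) (stg k) :=
  ((integrable_pt _ _ _).add_measure (integrable_pt _ _ _)).add_measure (integrable_pt _ _ _)

theorem integrable_fin : Integrable (fun x : ℝ => x) fin :=
  ((((integrable_pt _ _ _).add_measure (integrable_pt _ _ _)).add_measure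
      (integrable_pt _ _ _)).add_measure (integrable_pt _ _ _)).add_measure
      (integrable_pt _ _ _)

theorem stg_Ioi (k : ℕ) : stg k (Ioi 3) = 0 := by
  have hm : MeasurableSet (Ioi (3 : ℝ)) := measurableSet_Ioi
  have h : ∀ i, z i ∉ Ioi (3 : ℝ) := fun i hi => by
    have := z_le i
    have h3 : (3 : ℝ) < z i := hi
    linarith
  unfold stg
  simp only [Measure.coe_add, Pi.add_apply]
  rw [pt_apply_zero hm (h _), pt_apply_zero hm (h _), pt_apply_zero hm (by simp)]
  simp

theorem stg_mono {i j : ℕ} (h : i ≤ j) : ConvexOrder (stg i) (stg j) := by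
  induction j, h using Nat.le_induction with
  | base =>
    have := isProbabilityMeasure_stg i
    exact ConvexOrder.refl (integrable_stg i)
  | succ j hj ih => exact ih.trans (convexOrder_of_isCurtain (isCurtain_step j) 3 (stg_Ioi j))

/-- `mono`: `stg i ≤_c stg j` for `i ≤ j` and `stg i ≤_c fin` by `convexOrder_of_isCurtain` (with
`b = 3`), `isCurtain_step`, `isCurtain_fin`, `ConvexOrder.trans`, `stage_mono`. -/
theorem isPeacock_mu : IsPeacock mu := by
  refine ⟨fun t => ?_, fun t => ?_, fun s t hst => ?_⟩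
  · unfold mu
    split_ifs
    · exact isProbabilityMeasure_stg _
    · exact isProbabilityMeasure_fin
  · unfold mu
    split_ifs
    · exact integrable_stg _
    · exact integrable_fin
  · have hst' : (s : ℝ) ≤ t := hst
    unfold mu
    by_cases ht : (t : ℝ) < 1 / 2
    · rw [if_pos ht, if_pos (lt_of_le_of_lt hst' ht)]
      exact stg_mono (stage_mono s.2.1 hst' ht)
    · rw [if_neg ht]
      by_cases hs : (s : ℝ) < 1 / 2
      · rw [if_pos hs]
        exact convexOrder_of_isCurtain (isCurtain_fin _) 3 (stg_Ioi _)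
      · rw [if_neg hs]
        have := isProbabilityMeasure_fin
        exact ConvexOrder.refl integrable_fin

theorem kantorovich_self (μ : Measure ℝ) : kantorovich μ μ = 0 := by
  have hm := measurable_diag
  refine le_antisymm ?_ zero_le
  unfold kantorovich
  refine iInf_le_of_le (μ.map fun x => (x, x)) (iInf_le_of_le ?_ (iInf_le_of_le ?_ ?_))
  · rw [Measure.map_map measurable_fst hm]
    exact Measure.map_id
  · rw [Measure.map_map measurable_snd hm]
    exact Measure.map_id
  · rw [lintegral_map (by fun_prop) hm]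
    simp

/-- `mu` is constant on a right neighbourhood of every `t` (`stage_eq_iff`), and
`kantorovich μ μ = 0` (the coupling `μ.map (fun x => (x, x))`). -/
theorem rightContinuous_mu : RightContinuous mu := by
  intro t
  have key : ∀ᶠ s in 𝓝[≥] t, mu s = mu t := by
    by_cases ht : (t : ℝ) < 1 / 2
    · have h := (stage_eq_iff t.2.1 ht _).1 rfl
      have hlt : sT (stage t + 1) < 1 / 2 := by
        unfold sT
        have : (0 : ℝ) < 1 / 2 ^ (stage t + 1 + 1) := by positivity
        linarith
      have h0 : (0 : ℝ) ≤ sT (stage t + 1) := t.2.1.trans h.2.le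
      set b : T := ⟨sT (stage t + 1), h0, by linarith⟩ with hb
      have htb : t < b := h.2
      filter_upwards [Ico_mem_nhdsGE htb] with s hs
      have hs1 : (t : ℝ) ≤ s := hs.1
      have hs2 : (s : ℝ) < sT (stage t + 1) := hs.2
      have hs3 : (s : ℝ) < 1 / 2 := hs2.trans hlt
      unfold mu
      rw [if_pos hs3, if_pos ht, (stage_eq_iff s.2.1 hs3 _).2 ⟨h.1.trans hs1, hs2⟩]
    · filter_upwards [self_mem_nhdsWithin] with s hs
      have hs1 : (t : ℝ) ≤ s := hs
      unfold mu
      rw [if_neg ht, if_neg (by linarith [not_lt.1 ht])]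
  refine tendsto_const_nhds.congr' ?_
  filter_upwards [key] with s hs
  rw [hs, kantorovich_self]

theorem pd_apply_zero {m : ℝ} {ω : D} {A : Set D} (hA : MeasurableSet A) (hx : ω ∉ A) :
    pd m ω A = 0 := by
  unfold pd
  rw [Measure.smul_apply, Measure.dirac_apply' _ hA, indicator_of_notMem hx, smul_zero]

theorem pd_apply_mem {m : ℝ} {ω : D} {A : Set D} (hx : ω ∈ A) :
    pd m ω A = ENNReal.ofReal m := by
  unfold pd
  rw [Measure.smul_apply, Measure.dirac_apply_of_mem hx, smul_eq_mul, mul_one]

/-- The event `ω 0 = z 0`, `ω 1 = 2` has measure `1/6` under `PI 0` (path `survI 0 2`) and `0`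
under `PI 1` (there the only path with `ω 1 = 2` is `survI 1 2`, and it has `ω 0 = z 1`). -/
theorem PI_ne : PI 0 ≠ PI 1 := by
  set t0 : T := ⟨0, by norm_num⟩ with ht0
  set t1 : T := ⟨1, by norm_num⟩ with ht1
  have h0 : (t0 : ℝ) < 1 / 2 := by
    show (0 : ℝ) < 1 / 2
    norm_num
  have h1 : 1 / 2 ≤ (t1 : ℝ) := by
    show (1 : ℝ) / 2 ≤ 1
    norm_num
  have hst : stage t0 = 0 := by
    refine (stage_eq_iff le_rfl h0 0).2 ⟨?_, ?_⟩
    · show sT 0 ≤ 0
      unfold sT
      norm_num
    · show 0 < sT (0 + 1)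
      unfold sT
      norm_num
  set S : Set D := {ω | ω t0 = z 0 ∧ ω t1 = 2} with hS
  have hSm : MeasurableSet S :=
    (measurable_eval t0 (measurableSet_singleton (z 0))).inter
      (measurable_eval t1 (measurableSet_singleton 2))
  have e1 : PI 1 S = 0 := by
    have n1 : top ∉ S := fun h => by
      have h2 : pathFun (fun _ => 3) 3 t1 = 2 := h.2
      rw [pathFun_ge _ _ h1] at h2
      norm_num at h2
    have n2 : ∀ k, leak k ∉ S := fun k h => by
      have h2 : pathFun (yLeak k) 3 t1 = 2 := h.2
      rw [pathFun_ge _ _ h1] at h2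
      norm_num at h2
    have n3 : ∀ c e, e ≠ 2 → survI c e ∉ S := fun c e he h => by
      have h2 : pathFun (pos c) e t1 = 2 := h.2
      rw [pathFun_ge _ _ h1] at h2
      exact he h2
    have n4 : survI 1 2 ∉ S := fun h => by
      have h2 : pathFun (pos 1) 2 t0 = z 0 := h.1
      rw [pathFun_lt _ _ h0, hst] at h2
      have h3 : pos 1 0 = z 1 := pos_succ_self 0
      rw [h3] at h2
      have h4 := z_strictAnti (show 0 < 1 by norm_num)
      linarith
    unfold PI
    simp only [Measure.coe_add, Pi.add_apply]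
    rw [pd_apply_zero hSm n1, Measure.sum_apply _ hSm, pd_apply_zero hSm (n3 _ _ (by norm_num)),
      pd_apply_zero hSm (n3 _ _ (by norm_num)), pd_apply_zero hSm (n3 _ _ (by norm_num)),
      pd_apply_zero hSm n4]
    simp only [pd_apply_zero hSm (n2 _), tsum_zero, add_zero]
  have e0 : ENNReal.ofReal (1 / 6) ≤ PI 0 S := by
    have hmem : survI 0 2 ∈ S := by
      refine ⟨?_, ?_⟩
      · show pathFun (pos 0) 2 t0 = z 0
        rw [pathFun_lt _ _ h0, hst, pos_self]
      · show pathFun (pos 0) 2 t1 = 2
        rw [pathFun_ge _ _ h1]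
    unfold PI
    simp only [Measure.coe_add, Pi.add_apply]
    rw [pd_apply_mem hmem]
    refine le_trans ?_ le_add_self
    exact le_add_self
  intro h
  rw [h, e1] at e0
  have : (0 : ℝ≥0∞) < ENNReal.ofReal (1 / 6) := ENNReal.ofReal_pos.2 (by norm_num)
  exact absurd e0 (not_le.2 this)

end Pool.Agent.T2H73.LC
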