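import Pool.Agent.T2H73.LC.Law
import Pool.Agent.T2H73.LC.Conv
import Pool.Agent.T2H73.LC.MarkR
import Pool.Agent.T2H73.LC.Peac

/-!
# Assembly
-/

set_option autoImplicit false

namespace Pool.Agent.T2H73.LC

open MeasureTheory Filter Topology Set
open scoped ENNReal

/-- the dyadic partition with step `1/2^(K+1)` -/
noncomputable def dya (K : ℕ) : Partition where
  Q := 2 ^ (K + 1)
  t k := ⟨((k : ℕ) : ℝ) / 2 ^ (K + 1), by
    refine ⟨by positivity, ?_⟩
    rw [div_le_one (by positivity)]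
    have h : (k : ℕ) ≤ 2 ^ (K + 1) := Nat.lt_succ_iff.1 k.2
    exact_mod_cast h⟩
  strictMono := by
    intro i j hij
    rw [← Subtype.coe_lt_coe]
    show ((i : ℕ) : ℝ) / 2 ^ (K + 1) < ((j : ℕ) : ℝ) / 2 ^ (K + 1)
    have h : (i : ℕ) < (j : ℕ) := hij
    have h' : ((i : ℕ) : ℝ) < ((j : ℕ) : ℝ) := by exact_mod_cast h
    gcongr
  zero := by
    apply Subtype.ext
    simp
  one := by
    apply Subtype.ext
    simp

theorem dya_t (K : ℕ) (k : Fin (2 ^ (K + 1) + 1)) :
    ((dya K).t k : ℝ) = ((k : ℕ) : ℝ) / 2 ^ (K + 1) := rfl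

theorem dya_castSucc (K : ℕ) (k : Fin (dya K).Q) :
    ((dya K).t k.castSucc : ℝ) = ((k : ℕ) : ℝ) / 2 ^ (K + 1) := rfl

theorem dya_succ (K : ℕ) (k : Fin (dya K).Q) :
    ((dya K).t k.succ : ℝ) = (((k : ℕ) : ℝ) + 1) / 2 ^ (K + 1) := by
  have : ((dya K).t k.succ : ℝ) = (((k : ℕ) + 1 : ℕ) : ℝ) / 2 ^ (K + 1) := rfl
  rw [this]
  push_cast
  rfl

theorem dya_mesh (K : ℕ) : (dya K).mesh = 1 / 2 ^ (K + 1) := by
  unfold Partition.mesh
  have h : ∀ k : Fin (dya K).Q,
      (((dya K).t k.succ : ℝ) - (dya K).t k.castSucc) = 1 / 2 ^ (K + 1) := by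
    intro k
    rw [dya_succ, dya_castSucc]
    ring
  have : Nonempty (Fin (dya K).Q) := ⟨⟨0, by show 0 < 2 ^ (K + 1); positivity⟩⟩
  simp_rw [h]
  exact ciSup_const

theorem tendsto_mesh (c : ℕ) : Tendsto (fun p => (dya (2 * p + c)).mesh) atTop (𝓝 0) := by
  simp_rw [dya_mesh]
  have h : Tendsto (fun k : ℕ => (1 / 2 : ℝ) ^ k) atTop (𝓝 0) :=
    tendsto_pow_atTop_nhds_zero_of_lt_one (by norm_num) (by norm_num)
  have h2 : Tendsto (fun p : ℕ => 2 * p + c + 1) atTop atTop :=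
    tendsto_atTop_mono (fun p => by show p ≤ _; omega) tendsto_id
  refine (h.comp h2).congr fun p => ?_
  simp

/-- a multiple of the step below `s_{j+1}` stays below it after one step -/
theorem step_le {K j k : ℕ} (hj : j < K) (h : ((k : ℕ) : ℝ) / 2 ^ (K + 1) < sT (j + 1)) :
    ((k : ℝ) + 1) / 2 ^ (K + 1) ≤ sT (j + 1) := by
  obtain ⟨d, rfl⟩ : ∃ d, K = j + 1 + d := ⟨K - (j + 1), by omega⟩
  have e : sT (j + 1) = ((2 ^ (j + 1 + d) - 2 ^ d : ℝ)) / 2 ^ (j + 1 + d + 1) := by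
    unfold sT
    rw [sub_div, pow_add (2:ℝ) (j + 1 + d) 1, pow_add (2:ℝ) (j + 1) d, pow_add (2:ℝ) (j + 1) 1]
    field_simp
  rw [e] at h ⊢
  rw [div_lt_div_iff_of_pos_right (by positivity)] at h
  rw [div_le_div_iff_of_pos_right (by positivity)]
  have h1 : (2 : ℕ) ^ d ≤ 2 ^ (j + 1 + d) := Nat.pow_le_pow_right (by norm_num) (by omega)
  have h2 : ((2 : ℝ) ^ (j + 1 + d) - 2 ^ d) = ((2 ^ (j + 1 + d) - 2 ^ d : ℕ) : ℝ) := by
    push_cast [Nat.cast_sub h1]
    rfl
  rw [h2] at h ⊢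
  have h3 : k < 2 ^ (j + 1 + d) - 2 ^ d := by exact_mod_cast h
  have h4 : k + 1 ≤ 2 ^ (j + 1 + d) - 2 ^ d := h3
  exact_mod_cast h4

theorem half_iff {K k : ℕ} : ((k : ℕ) : ℝ) / 2 ^ (K + 1) < 1 / 2 ↔ k < 2 ^ K := by
  rw [div_lt_div_iff₀ (by positivity) (by norm_num), pow_succ]
  constructor
  · intro h
    have : (k : ℝ) < 2 ^ K := by linarith
    exact_mod_cast this
  · intro h
    have : (k : ℝ) < 2 ^ K := by exact_mod_cast h
    linarith

theorem half_iff' {K k : ℕ} : ((k : ℝ) + 1) / 2 ^ (K + 1) < 1 / 2 ↔ k + 1 < 2 ^ K := by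
  rw [← half_iff]
  push_cast
  rfl

/-- the points of the partition before `1/2` are at most `sT K` -/
theorem le_sT {K k : ℕ} (hk : k < 2 ^ K) : ((k : ℕ) : ℝ) / 2 ^ (K + 1) ≤ sT K := by
  have e : sT K = (2 ^ K - 1) / 2 ^ (K + 1) := by
    unfold sT
    rw [sub_div, pow_succ]
    field_simp
  rw [e, div_le_div_iff_of_pos_right (by positivity)]
  have : k + 1 ≤ 2 ^ K := hk
  have : ((k : ℝ) + 1) ≤ 2 ^ K := by exact_mod_cast this
  linarith

theorem sT_lt_succ (j : ℕ) : sT j < sT (j + 1) := by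
  unfold sT
  have : (1 : ℝ) / 2 ^ (j + 1 + 1) < 1 / 2 ^ (j + 1) := by
    apply one_div_lt_one_div_of_lt (by positivity)
    exact pow_lt_pow_right₀ (by norm_num) (by omega)
  linarith

theorem sT_lt_half (j : ℕ) : sT j < 1 / 2 := by
  unfold sT
  have : (0 : ℝ) < 1 / 2 ^ (j + 1) := by positivity
  linarith

theorem stage_le_K {K k : ℕ} (hk : k < 2 ^ K) : stage (((k : ℕ) : ℝ) / 2 ^ (K + 1)) ≤ K := by
  have h1 := le_sT hk
  have h0 : (0 : ℝ) ≤ sT K := le_trans (by positivity) h1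
  calc stage (((k : ℕ) : ℝ) / 2 ^ (K + 1)) ≤ stage (sT K) :=
        stage_mono (by positivity) h1 (sT_lt_half K)
    _ = K := (stage_eq_iff h0 (sT_lt_half K) K).2 ⟨le_refl _, sT_lt_succ K⟩

/-- the stages seen on `[t_k, t_{k+1})` -/
theorem stage_cell {K k : ℕ} (hk : k < 2 ^ K) {t : ℝ} (h1 : ((k : ℕ) : ℝ) / 2 ^ (K + 1) ≤ t)
    (h2 : t < ((k : ℝ) + 1) / 2 ^ (K + 1)) (ht : t < 1 / 2) :
    min (stage t) K = stage (((k : ℕ) : ℝ) / 2 ^ (K + 1)) := by
  have hK := stage_le_K hk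
  have h0 : (0 : ℝ) ≤ ((k : ℕ) : ℝ) / 2 ^ (K + 1) := by positivity
  have hlt : ((k : ℕ) : ℝ) / 2 ^ (K + 1) < 1 / 2 := half_iff.2 hk
  have hst := (stage_eq_iff h0 hlt _).1 rfl
  rcases hK.lt_or_eq with h | h
  · have h3 := step_le h hst.2
    have h4 : stage t = stage (((k : ℕ) : ℝ) / 2 ^ (K + 1)) :=
      (stage_eq_iff (h0.trans h1) ht _).2 ⟨hst.1.trans h1, lt_of_lt_of_le h2 h3⟩
    rw [h4]
    exact min_eq_left hK
  · have h5 : stage (((k : ℕ) : ℝ) / 2 ^ (K + 1)) ≤ stage t := stage_mono h0 h1 ht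
    rw [h, min_eq_right]
    rw [← h]
    exact h5

theorem isCurtLaw_R (K : ℕ) : IsCurtLaw mu (dya K) (R K) where
  prob := isProbabilityMeasure_R K
  markov := by
    have := isProbabilityMeasure_R K
    exact isMarkov_R K
  const := by
    filter_upwards [ae_R K] with ω hω k t h1 h2
    have h1' : ((k : ℕ) : ℝ) / 2 ^ (K + 1) ≤ (t : ℝ) := h1
    have h2' : (t : ℝ) < (((k : ℕ) : ℝ) + 1) / 2 ^ (K + 1) := by
      rw [← dya_succ]
      exact h2
    by_cases hk : (k : ℕ) < 2 ^ K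
    · have hlt : ((dya K).t k.castSucc : ℝ) < 1 / 2 := half_iff.2 hk
      have ht : (t : ℝ) < 1 / 2 := by
        have h3 : (((k : ℕ) : ℝ) + 1) / 2 ^ (K + 1) ≤ 1 / 2 := by
          rw [div_le_div_iff₀ (by positivity) (by norm_num), pow_succ]
          have : (k : ℕ) + 1 ≤ 2 ^ K := hk
          have : (((k : ℕ) : ℝ) + 1) ≤ 2 ^ K := by exact_mod_cast this
          linarith
        linarith
      have hc := stage_cell hk h1' h2' ht
      have hK := stage_le_K hk
      rw [← dya_castSucc] at hc hK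
      -- values
      have key : ∀ (y : ℕ → ℝ) (e : ℝ), (∀ j, y (min j K) = y j) →
          pathFun y e t = pathFun y e ((dya K).t k.castSucc) := by
        intro y e hy
        unfold pathFun
        rw [if_pos ht, if_pos hlt, ← hy (stage t), hc]
      rcases hω with rfl | ⟨i, hi, rfl⟩ | ⟨c, e, rfl⟩
      · exact key (fun _ => 3) 3 fun j => rfl
      · refine key _ _ fun j => ?_
        unfold yLeak
        rcases le_total j K with h | h
        · rw [min_eq_left h]
        · rw [min_eq_right h, if_neg (by omega), if_neg (by omega)]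
      · refine key _ _ fun j => ?_
        unfold ySurv
        rw [min_assoc, min_self]
    · have hge : ¬ ((dya K).t k.castSucc : ℝ) < 1 / 2 := fun h => hk (half_iff.1 h)
      have ht : ¬ (t : ℝ) < 1 / 2 := by
        have h1'' : ((dya K).t k.castSucc : ℝ) ≤ t := h1
        intro h
        exact hge (lt_of_le_of_lt h1'' h)
      have key : ∀ (y : ℕ → ℝ) (e : ℝ),
          pathFun y e t = pathFun y e ((dya K).t k.castSucc) := by
        intro y e
        unfold pathFun
        rw [if_neg ht, if_neg hge]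
      rcases hω with rfl | ⟨i, hi, rfl⟩ | ⟨c, e, rfl⟩
      · exact key (fun _ => 3) 3
      · exact key (yLeak i) 3
      · exact key (ySurv K c) e
  law := by
    intro k
    have ec := dya_castSucc K k
    have es := dya_succ K k
    have h0c : (0 : ℝ) ≤ ((k : ℕ) : ℝ) / 2 ^ (K + 1) := by positivity
    have h0s : (0 : ℝ) ≤ (((k : ℕ) : ℝ) + 1) / 2 ^ (K + 1) := by positivity
    have hcs : ((k : ℕ) : ℝ) / 2 ^ (K + 1) < (((k : ℕ) : ℝ) + 1) / 2 ^ (K + 1) := by
      gcongr
      linarith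
    by_cases h1 : (k : ℕ) + 1 < 2 ^ K
    · -- both before 1/2
      have hk : (k : ℕ) < 2 ^ K := by omega
      have hlt : ((dya K).t k.castSucc : ℝ) < 1 / 2 := half_iff.2 hk
      have hlt' : ((dya K).t k.succ : ℝ) < 1 / 2 := by rw [es]; exact half_iff'.2 h1
      have hK := stage_le_K hk
      have hK' : stage (((k : ℕ) : ℝ) + 1) ≤ stage (((k : ℕ) : ℝ) + 1) := le_refl _
      have hst := (stage_eq_iff h0c (by rw [← ec]; exact hlt) _).1 rfl
      have hsK : stage (((k : ℕ) : ℝ) / 2 ^ (K + 1)) < K := by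
        rcases hK.lt_or_eq with h | h
        · exact h
        · exfalso
          rw [h] at hst
          have h3 : ((((k : ℕ) + 1 : ℕ)) : ℝ) / 2 ^ (K + 1) ≤ sT K := le_sT h1
          push_cast at h3
          linarith [hst.1]
      have h3 := step_le hsK hst.2
      have hKs : stage ((dya K).t k.succ : ℝ) ≤ K := by
        rw [es]
        have := stage_le_K h1
        push_cast at this
        exact this
      rw [mu, if_pos hlt, mu, if_pos hlt',
        map_R_eq_V K _ _ hlt hlt' (by rw [ec]; exact hK) hKs]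
      rw [ec, es]
      rcases h3.lt_or_eq with h | h
      · have h4 : stage ((((k : ℕ) : ℝ) + 1) / 2 ^ (K + 1)) =
            stage (((k : ℕ) : ℝ) / 2 ^ (K + 1)) :=
          (stage_eq_iff h0s (by rw [← es]; exact hlt') _).2 ⟨hst.1.trans hcs.le, h⟩
        rw [h4, V_eq (le_refl _) hK, V_diag]
        have := isProbabilityMeasure_stg (stage (((k : ℕ) : ℝ) / 2 ^ (K + 1)))
        exact isCurtain_id _ (integrable_stg _)
      · have h4 : stage ((((k : ℕ) : ℝ) + 1) / 2 ^ (K + 1)) =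
            stage (((k : ℕ) : ℝ) / 2 ^ (K + 1)) + 1 :=
          (stage_eq_iff h0s (by rw [← es]; exact hlt') _).2 ⟨h.ge, by
            rw [h]; exact sT_lt_succ _⟩
        rw [h4, V_eq (Nat.le_succ _) hsK, V_step]
        exact isCurtain_step _
    · by_cases h2 : (k : ℕ) < 2 ^ K
      · -- last step before 1/2
        have hlt : ((dya K).t k.castSucc : ℝ) < 1 / 2 := half_iff.2 h2
        have hge : ¬ ((dya K).t k.succ : ℝ) < 1 / 2 := by
          rw [es]
          exact fun h => h1 (half_iff'.1 h)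
        have hk : (k : ℕ) + 1 = 2 ^ K := by omega
        have e1 : ((k : ℕ) : ℝ) / 2 ^ (K + 1) = sT K := by
          have : (((k : ℕ) : ℝ)) = 2 ^ K - 1 := by
            have : ((((k : ℕ) + 1 : ℕ)) : ℝ) = 2 ^ K := by exact_mod_cast hk
            push_cast at this
            linarith
          rw [this]
          unfold sT
          rw [sub_div, pow_succ]
          field_simp
        have hst : stage ((dya K).t k.castSucc : ℝ) = K := by
          rw [ec]
          exact (stage_eq_iff h0c (by rw [← ec]; exact hlt) K).2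
            ⟨e1.ge, by rw [e1]; exact sT_lt_succ K⟩
        rw [mu, if_pos hlt, mu, if_neg hge, map_R_last K _ _ hlt hst (not_lt.1 hge), hst]
        exact isCurtain_fin K
      · have hge : ¬ ((dya K).t k.castSucc : ℝ) < 1 / 2 := fun h => h2 (half_iff.1 h)
        have hge' : ¬ ((dya K).t k.succ : ℝ) < 1 / 2 := by
          intro h
          apply hge
          rw [ec]
          rw [es] at h
          linarith
        rw [mu, if_neg hge, mu, if_neg hge', map_R_final K _ _ (not_lt.1 hge) (not_lt.1 hge')]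
        have := isProbabilityMeasure_fin
        exact isCurtain_id _ integrable_fin

theorem PI_mem (c : ℕ) : PI c ∈ LimCurt mu := by
  refine ⟨isProbabilityMeasure_PI c, fun p => dya (2 * p + c), fun p => R (2 * p + c),
    tendsto_mesh c, fun p => isCurtLaw_R _, fun Φ hΦ hb => tendsto_R c Φ hΦ hb⟩

/-- **Two Markovian limit curtain processes.** -/
theorem main : ∃ μ : T → Measure ℝ, IsPeacock μ ∧ RightContinuous μ ∧
    ∃ P P' : Measure D, P ≠ P' ∧ (P ∈ LimCurt μ ∧ IsMarkov P) ∧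
      (P' ∈ LimCurt μ ∧ IsMarkov P') := by
  have := isProbabilityMeasure_PI 0
  have := isProbabilityMeasure_PI 1
  exact ⟨mu, isPeacock_mu, rightContinuous_mu, PI 0, PI 1, PI_ne,
    ⟨PI_mem 0, isMarkov_PI 0⟩, ⟨PI_mem 1, isMarkov_PI 1⟩⟩

end Pool.Agent.T2H73.LC
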