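import Pool.Agent.T2H73.LC.Time

/-!
# The model: two particles which approach `0` and exchange their order infinitely often

`z k = 1/2^(k+2)`, `a k = 1/(3 - z k)`. During stage `k` the particles are at `z k` (mass `a k`) and
`z (k+1)` (mass `a (k+1)`), and the remaining mass is at `3`. At the end of stage `k` the right
particle `z k` jumps to `z (k+2)` or leaks to `3`; the left one stays. At time `1/2` the left
particle jumps to `±1` (roughly) and the right one to `±2`.
-/

set_option autoImplicit false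

namespace Pool.Agent.T2H73.LC

open MeasureTheory Filter Topology Set
open scoped ENNReal

/-- positions -/
noncomputable def z (k : ℕ) : ℝ := 1 / 2 ^ (k + 2)

/-- masses -/
noncomputable def a (k : ℕ) : ℝ := 1 / (3 - z k)

/-- mass `m` at `x` -/
noncomputable def pt (m x : ℝ) : Measure ℝ := ENNReal.ofReal m • Measure.dirac x

/-- mass `m` at `(x, y)` -/
noncomputable def pt2 (m x y : ℝ) : Measure (ℝ × ℝ) := ENNReal.ofReal m • Measure.dirac (x, y)

/-- the marginal law during stage `k` -/
noncomputable def stg (k : ℕ) : Measure ℝ :=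
  pt (a (k + 1)) (z (k + 1)) + pt (a k) (z k) + pt (1 - a k - a (k + 1)) 3

/-- the marginal law from time `1/2` on -/
noncomputable def fin : Measure ℝ :=
  pt (1 / 6) (-2) + pt (1 / 6) (-1) + pt (1 / 6) 1 + pt (1 / 6) 2 + pt (1 / 3) 3

/-- the peacock -/
noncomputable def mu (t : T) : Measure ℝ := if (t : ℝ) < 1 / 2 then stg (stage t) else fin

/-- the weights of the last step: the left particle `z (k+1)` goes to `-1`, `1`, `2` with the masses
`pL k`, `1/6`, `rL k` -/
noncomputable def pL (k : ℕ) : ℝ := (9 - 5 * z (k + 1)) / (18 * (3 - z (k + 1)))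

noncomputable def rL (k : ℕ) : ℝ := 4 * z (k + 1) / (9 * (3 - z (k + 1)))

/-- the right particle `z k` goes to `-2`, `-1`, `2`, `3` with the masses `1/6`, `qR k`, `vR k`,
`uR k` -/
noncomputable def qR (k : ℕ) : ℝ := z (k + 1) / (9 * (3 - z (k + 1)))

noncomputable def vR (k : ℕ) : ℝ := 1 / 6 - 4 * z (k + 1) / (9 * (3 - z (k + 1)))

noncomputable def uR (k : ℕ) : ℝ := a k + a (k + 1) - 2 / 3

/-- the coupling of `stg k` and `stg (k+1)` -/
noncomputable def cStep (k : ℕ) : Measure (ℝ × ℝ) :=
  pt2 (a (k + 1)) (z (k + 1)) (z (k + 1)) +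
    (pt2 (a (k + 2)) (z k) (z (k + 2)) + pt2 (a k - a (k + 2)) (z k) 3) +
    pt2 (1 - a k - a (k + 1)) 3 3

/-- the coupling of `stg k` and `fin` -/
noncomputable def cFin (k : ℕ) : Measure (ℝ × ℝ) :=
  (pt2 (pL k) (z (k + 1)) (-1) + pt2 (1 / 6) (z (k + 1)) 1 + pt2 (rL k) (z (k + 1)) 2) +
    (pt2 (1 / 6) (z k) (-2) + pt2 (qR k) (z k) (-1) + pt2 (vR k) (z k) 2 + pt2 (uR k) (z k) 3) +
    pt2 (1 - a k - a (k + 1)) 3 3

/-! ## Elementary facts -/

theorem z_pos (k : ℕ) : 0 < z k := by unfold z; positivity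

theorem z_le (k : ℕ) : z k ≤ 1 / 4 := by
  unfold z
  apply one_div_le_one_div_of_le (by norm_num)
  calc (4 : ℝ) = 2 ^ 2 := by norm_num
    _ ≤ 2 ^ (k + 2) := pow_le_pow_right₀ (by norm_num) (by omega)

theorem z_succ (k : ℕ) : z (k + 1) = z k / 2 := by
  unfold z
  rw [show k + 1 + 2 = (k + 2) + 1 by ring, pow_succ]
  field_simp

theorem z_strictAnti : StrictAnti z := by
  apply strictAnti_nat_of_succ_lt
  intro k
  rw [z_succ]
  have := z_pos k
  linarith

theorem tendsto_z : Tendsto z atTop (𝓝 0) := by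
  have h : Tendsto (fun k : ℕ => (1 / 2 : ℝ) ^ (k + 2)) atTop (𝓝 0) :=
    (tendsto_pow_atTop_nhds_zero_of_lt_one (by norm_num) (by norm_num)).comp
      (tendsto_add_atTop_nat 2)
  refine h.congr fun k => ?_
  unfold z
  rw [one_div_pow]

theorem a_pos (k : ℕ) : 0 < a k := by
  unfold a
  have := z_le k
  apply one_div_pos.2
  linarith

/-- `a k (3 - z k) = 1` -/
theorem a_mul (k : ℕ) : a k * (3 - z k) = 1 := by
  unfold a
  have := z_le k
  have h : (3 : ℝ) - z k ≠ 0 := by linarith
  field_simp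

theorem a_gt (k : ℕ) : 1 / 3 < a k := by
  unfold a
  have := z_le k
  have := z_pos k
  apply one_div_lt_one_div_of_lt <;> linarith

theorem a_le (k : ℕ) : a k ≤ 4 / 11 := by
  unfold a
  have := z_le k
  rw [div_le_div_iff₀ (by linarith) (by norm_num)]
  linarith

theorem a_anti : StrictAnti a := by
  intro i j hij
  unfold a
  have := z_le i
  have := z_le j
  have := z_strictAnti hij
  apply one_div_lt_one_div_of_lt <;> linarith

theorem tendsto_a : Tendsto a atTop (𝓝 (1 / 3)) := by
  unfold a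
  have h : Tendsto (fun k => 3 - z k) atTop (𝓝 (3 - 0)) := tendsto_const_nhds.sub tendsto_z
  have := h.inv₀ (by norm_num)
  simpa using this

theorem rest_nonneg (k : ℕ) : 0 ≤ 1 - a k - a (k + 1) := by
  have := a_le k
  have := a_le (k + 1)
  linarith

theorem pL_pos (k : ℕ) : 0 < pL k := by
  unfold pL
  have := z_le (k + 1)
  have := z_pos (k + 1)
  apply div_pos <;> linarith

theorem rL_pos (k : ℕ) : 0 < rL k := by
  unfold rL
  have := z_le (k + 1)
  have := z_pos (k + 1)
  apply div_pos <;> linarith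

theorem qR_pos (k : ℕ) : 0 < qR k := by
  unfold qR
  have := z_le (k + 1)
  have := z_pos (k + 1)
  apply div_pos <;> linarith

theorem vR_eq (k : ℕ) : vR k = 1 / 6 - rL k := rfl

theorem pL_eq (k : ℕ) : pL k = 1 / 6 - qR k := by
  unfold pL qR
  have := z_le (k + 1)
  have h : (3 : ℝ) - z (k + 1) ≠ 0 := by linarith
  field_simp
  ring

theorem vR_pos (k : ℕ) : 0 < vR k := by
  unfold vR
  have h1 := z_le (k + 1)
  have h2 := z_pos (k + 1)
  rw [sub_pos, div_lt_div_iff₀ (by linarith) (by norm_num)]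
  linarith

theorem uR_pos (k : ℕ) : 0 < uR k := by
  unfold uR
  have := a_gt k
  have := a_gt (k + 1)
  linarith

/-- mass of the left particle -/
theorem left_mass (k : ℕ) : pL k + 1 / 6 + rL k = a (k + 1) := by
  unfold pL rL a
  have := z_le (k + 1)
  have h : (3 : ℝ) - z (k + 1) ≠ 0 := by linarith
  field_simp
  ring

/-- barycentre of the left particle -/
theorem left_bary (k : ℕ) : pL k * (-1) + 1 / 6 * 1 + rL k * 2 = a (k + 1) * z (k + 1) := by
  unfold pL rL a
  have := z_le (k + 1)
  have h : (3 : ℝ) - z (k + 1) ≠ 0 := by linarith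
  field_simp
  ring

/-- mass of the right particle -/
theorem right_mass (k : ℕ) : 1 / 6 + qR k + vR k + uR k = a k := by
  have h1 := left_mass k
  have h2 := pL_eq k
  have h3 := vR_eq k
  unfold uR
  linarith

/-- barycentre of the right particle -/
theorem right_bary (k : ℕ) :
    1 / 6 * (-2) + qR k * (-1) + vR k * 2 + uR k * 3 = a k * z k := by
  have h1 := left_bary k
  have h2 := pL_eq k
  have h3 := vR_eq k
  have h4 := a_mul k
  have h5 := a_mul (k + 1)
  unfold uR
  linarith

end Pool.Agent.T2H73.LC
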