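import Pool.Agent.T2H73.LC.Model

/-!
# Package SH: convex order and shadows
-/

set_option autoImplicit false

namespace Pool.Agent.T2H73.LC

open MeasureTheory Filter Topology Set
open scoped ENNReal

theorem ConvexOrder.refl {α : Measure ℝ} [IsFiniteMeasure α]
    (h : Integrable (fun x : ℝ => x) α) : ConvexOrder α α :=
  ⟨inferInstance, inferInstance, rfl, h, h, fun _ _ hi => ⟨hi, le_refl _⟩⟩

theorem ConvexOrder.trans {α β γ : Measure ℝ} (h1 : ConvexOrder α β) (h2 : ConvexOrder β γ) :
    ConvexOrder α γ :=
  ⟨h1.fin, h2.fin', h1.mass.trans h2.mass, h1.mom, h2.mom', fun f hf hi =>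
    ⟨(h1.le f hf (h2.le f hf hi).1).1, (h1.le f hf (h2.le f hf hi).1).2.trans
      (h2.le f hf hi).2⟩⟩

theorem ConvexOrder.add {α η α' η' : Measure ℝ} (h1 : ConvexOrder α η)
    (h2 : ConvexOrder α' η') : ConvexOrder (α + α') (η + η') := by
  have := h1.fin
  have := h1.fin'
  have := h2.fin
  have := h2.fin'
  refine ⟨inferInstance, inferInstance, ?_, h1.mom.add_measure h2.mom,
    h1.mom'.add_measure h2.mom', fun f hf hi => ?_⟩
  · simp only [Measure.coe_add, Pi.add_apply, h1.mass, h2.mass]
  · have hi1 := hi.left_of_add_measure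
    have hi2 := hi.right_of_add_measure
    obtain ⟨j1, k1⟩ := h1.le f hf hi1
    obtain ⟨j2, k2⟩ := h2.le f hf hi2
    refine ⟨j1.add_measure j2, ?_⟩
    rw [integral_add_measure j1 j2, integral_add_measure hi1 hi2]
    exact add_le_add k1 k2

theorem isFiniteMeasure_pt (m x : ℝ) : IsFiniteMeasure (pt m x) := by
  refine ⟨?_⟩
  unfold pt
  simp

instance (m x : ℝ) : IsFiniteMeasure (pt m x) := isFiniteMeasure_pt m x

theorem integrable_pt (m x : ℝ) (f : ℝ → ℝ) : Integrable f (pt m x) := by
  unfold pt
  exact (integrable_dirac (by simp)).smul_measure ENNReal.ofReal_ne_top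

theorem integral_pt {m : ℝ} (hm : 0 ≤ m) (x : ℝ) (f : ℝ → ℝ) :
    ∫ y, f y ∂(pt m x) = m * f x := by
  unfold pt
  rw [integral_smul_measure, integral_dirac, ENNReal.toReal_ofReal hm, smul_eq_mul]

theorem pt_univ (m x : ℝ) : pt m x univ = ENNReal.ofReal m := by
  unfold pt
  simp

theorem integrable_sum_pt {ι : Type} (s : Finset ι) (m x : ι → ℝ) (f : ℝ → ℝ) :
    Integrable f (∑ i ∈ s, pt (m i) (x i)) :=
  integrable_finsetSum_measure.2 fun _ _ => integrable_pt _ _ _

theorem integral_sum_pt {ι : Type} (s : Finset ι) (m x : ι → ℝ) (hm : ∀ i ∈ s, 0 ≤ m i)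
    (f : ℝ → ℝ) :
    ∫ y, f y ∂(∑ i ∈ s, pt (m i) (x i)) = ∑ i ∈ s, m i * f (x i) := by
  rw [integral_finsetSum_measure fun _ _ => integrable_pt _ _ _]
  exact Finset.sum_congr rfl fun i hi => integral_pt (hm i hi) _ _

/-- Jensen: the mass `M` at the barycentre is below the finitely supported measure
(`ConvexOn.map_sum_le` for `M > 0`; if `M = 0` all measures vanish; `∫ f d(pt m x) = m f x`). -/
theorem convexOrder_pt {ι : Type} (s : Finset ι) (m x : ι → ℝ) (hm : ∀ i ∈ s, 0 ≤ m i)
    (M b : ℝ) (h1 : ∑ i ∈ s, m i = M) (h2 : ∑ i ∈ s, m i * x i = M * b) :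
    ConvexOrder (pt M b) (∑ i ∈ s, pt (m i) (x i)) := by
  have hM : 0 ≤ M := by rw [← h1]; exact Finset.sum_nonneg hm
  refine ⟨inferInstance, inferInstance, ?_, integrable_pt _ _ _, integrable_sum_pt _ _ _ _,
    fun f hf _ => ⟨integrable_pt _ _ _, ?_⟩⟩
  · rw [pt_univ, Measure.coe_finsetSum, Finset.sum_apply]
    simp only [pt_univ]
    rw [← ENNReal.ofReal_sum_of_nonneg hm, h1]
  · rw [integral_pt hM, integral_sum_pt s m x hm]
    rcases hM.eq_or_lt with h0 | hpos
    · rw [← h0, zero_mul]
      have hz : ∀ i ∈ s, m i = 0 := (Finset.sum_eq_zero_iff_of_nonneg hm).1 (h1.trans h0.symm)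
      exact Finset.sum_nonneg fun i hi => by rw [hz i hi, zero_mul]
    · have hw : ∀ i ∈ s, 0 ≤ m i / M := fun i hi => div_nonneg (hm i hi) hM
      have hs : ∑ i ∈ s, m i / M = 1 := by
        rw [← Finset.sum_div, h1, div_self hpos.ne']
      have hj := hf.map_sum_le hw hs (p := x) (fun i _ => mem_univ _)
      have e1 : ∑ i ∈ s, (m i / M) • x i = b := by
        have : ∑ i ∈ s, (m i / M) • x i = (∑ i ∈ s, m i * x i) / M := by
          rw [Finset.sum_div]
          exact Finset.sum_congr rfl fun i _ => by rw [smul_eq_mul]; ring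
        rw [this, h2]
        field_simp
      have e2 : ∑ i ∈ s, (m i / M) • f (x i) = (∑ i ∈ s, m i * f (x i)) / M := by
        rw [Finset.sum_div]
        exact Finset.sum_congr rfl fun i _ => by rw [smul_eq_mul]; ring
      rw [e1, e2, le_div_iff₀ hpos] at hj
      linarith

/-- A measure below `ν` is its own shadow. -/
theorem isShadow_self {ν α : Measure ℝ} (hle : α ≤ ν) (hα : ConvexOrder α α) :
    IsShadow ν α α :=
  ⟨hle, hα, fun _ _ h => h⟩

/-- `f = g` on the complement of a null set and monotonicity: for `g ≤ 0` on `S` the integral over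
`S` is smaller for the larger measure. -/
theorem setIntegral_anti {ν ν' : Measure ℝ} {g : ℝ → ℝ} {S : Set ℝ} (hS : MeasurableSet S)
    (hle : ν' ≤ ν) (hg : ∀ x ∈ S, g x ≤ 0) (hi : IntegrableOn g S ν) :
    ∫ x in S, g x ∂ν ≤ ∫ x in S, g x ∂ν' := by
  have h1 : ν'.restrict S ≤ ν.restrict S := Measure.restrict_mono le_rfl hle
  have h2 : ∫ x in S, (-g x) ∂ν' ≤ ∫ x in S, (-g x) ∂ν :=
    integral_mono_measure h1
      (by
        filter_upwards [ae_restrict_mem hS] with x hx
        simpa using hg x hx) hi.neg
  rw [integral_neg, integral_neg] at h2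
  linarith

/-- The first moments and the masses coincide. -/
theorem ConvexOrder.mean {α η : Measure ℝ} (h : ConvexOrder α η) :
    ∫ x, x ∂α = ∫ x, x ∂η := by
  have h1 := (h.le (fun x => x) (convexOn_id convex_univ) h.mom').2
  have h2 := (h.le (fun x => -x) ((concaveOn_id convex_univ).neg) h.mom'.neg).2
  rw [integral_neg, integral_neg] at h2
  linarith

/-- If `η ≤ ν` is carried by `[l, r]` and coincides with `ν` on `(l, r)` then `η` is the shadow of
every `α ≤_c η`.

Proof. Let `η' ≤ ν`, `α ≤_c η'`, `f` convex and `η'`-integrable. The masses and the first moments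
of `α`, `η`, `η'` coincide (`ConvexOrder` for the convex functions `x` and `-x`). `f` is continuous,
hence bounded on `[l, r]` and `η`-integrable. Let `c` be the affine function with `c l = f l`,
`c r = f r`, `g = f - c`: `g ≤ 0` on `[l, r]`, `g ≥ 0` outside `(l, r)`, `g l = g r = 0`. Then
`∫ g dη' = ∫_{(l,r)} g dη' + ∫_{(l,r)ᶜ} g dη' ≥ ∫_{(l,r)} g dη' ≥ ∫_{(l,r)} g dν
= ∫_{(l,r)} g dη = ∫ g dη` (`η' ≤ ν` and `g ≤ 0` on `(l,r)`: `integral_mono_measure` for `-g`
on the restrictions), and `∫ c dη' = ∫ c dη`. -/
theorem isShadow_interval {ν α η : Measure ℝ} {l r : ℝ} (hlr : l < r) [IsFiniteMeasure ν]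
    (hν : Integrable (fun x : ℝ => x) ν) (hle : η ≤ ν) (hord : ConvexOrder α η)
    (hout : η (Icc l r)ᶜ = 0) (hin : η.restrict (Ioo l r) = ν.restrict (Ioo l r)) :
    IsShadow ν α η := by
  refine ⟨hle, hord, fun η' hle' hord' => ?_⟩
  have hfη := hord.fin'
  have hfη' := hord'.fin'
  refine ⟨hfη, hfη', hord.mass.symm.trans hord'.mass, hord.mom', hord'.mom', fun f hf hi => ?_⟩
  have hcont : Continuous f := by
    have := hf.continuousOn isOpen_univ
    rwa [← continuousOn_univ]
  -- the chord
  set k : ℝ := (f r - f l) / (r - l) with hk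
  set c : ℝ → ℝ := fun x => f l + k * (x - l) with hc
  have hrl : 0 < r - l := by linarith
  have hcr : c r = f r := by
    rw [hc, hk]
    field_simp
    ring
  have hcl : c l = f l := by rw [hc]; ring
  set g : ℝ → ℝ := fun x => f x - c x with hg
  have hgcont : Continuous g := by
    rw [hg, hc]
    fun_prop
  -- sign inside
  have hin_neg : ∀ x ∈ Icc l r, g x ≤ 0 := by
    intro x hx
    have h := hf.2 (mem_univ l) (mem_univ r) 
      (show 0 ≤ (r - x) / (r - l) from div_nonneg (by linarith [hx.2]) hrl.le)
      (show 0 ≤ (x - l) / (r - l) from div_nonneg (by linarith [hx.1]) hrl.le)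
      (by field_simp; ring)
    simp only [smul_eq_mul] at h
    have e : (r - x) / (r - l) * l + (x - l) / (r - l) * r = x := by
      field_simp
      ring
    rw [e] at h
    have e2 : (r - x) / (r - l) * f l + (x - l) / (r - l) * f r = c x := by
      rw [hc, hk]
      field_simp
      ring
    rw [e2] at h
    rw [hg]
    show f x - c x ≤ 0
    linarith
  have hout_pos : ∀ x, x ∉ Ioo l r → 0 ≤ g x := by
    intro x hx
    rw [hg]
    show 0 ≤ f x - c x
    rcases le_or_gt x l with h | h
    · rcases h.eq_or_lt with rfl | h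
      · rw [hcl]; simp
      · -- l is between x and r
        have hrx : 0 < r - x := by linarith
        have h3 := hf.2 (mem_univ x) (mem_univ r) 
          (show 0 ≤ (r - l) / (r - x) from div_nonneg hrl.le hrx.le)
          (show 0 ≤ (l - x) / (r - x) from div_nonneg (by linarith) hrx.le) (by field_simp; ring)
        simp only [smul_eq_mul] at h3
        have e : (r - l) / (r - x) * x + (l - x) / (r - x) * r = l := by
          field_simp
          ring
        rw [e] at h3
        have h4 : (r - x) * f l ≤ (r - l) * f x + (l - x) * f r := by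
          have := mul_le_mul_of_nonneg_left h3 hrx.le
          have e3 : (r - x) * ((r - l) / (r - x) * f x + (l - x) / (r - x) * f r) =
              (r - l) * f x + (l - x) * f r := by
            field_simp
          linarith
        have e4 : (r - l) * (f x - c x) = (r - l) * f x + (l - x) * f r - (r - x) * f l := by
          rw [hc, hk]
          field_simp
          ring
        have h5 : 0 ≤ (r - l) * (f x - c x) := by rw [e4]; linarith
        exact nonneg_of_mul_nonneg_right h5 hrl
    · have hxr : r ≤ x := by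
        by_contra h'
        exact hx ⟨h, not_le.1 h'⟩
      rcases hxr.eq_or_lt with h' | h'
      · rw [← h', hcr]; simp
      · have hxl : 0 < x - l := by linarith
        have h3 := hf.2 (mem_univ l) (mem_univ x) 
          (show 0 ≤ (x - r) / (x - l) from div_nonneg (by linarith) hxl.le)
          (show 0 ≤ (r - l) / (x - l) from div_nonneg hrl.le hxl.le) (by field_simp; ring)
        simp only [smul_eq_mul] at h3
        have e : (x - r) / (x - l) * l + (r - l) / (x - l) * x = r := by
          field_simp
          ring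
        rw [e] at h3
        have h4 : (x - l) * f r ≤ (x - r) * f l + (r - l) * f x := by
          have := mul_le_mul_of_nonneg_left h3 hxl.le
          have e3 : (x - l) * ((x - r) / (x - l) * f l + (r - l) / (x - l) * f x) =
              (x - r) * f l + (r - l) * f x := by
            field_simp
          linarith
        have e4 : (r - l) * (f x - c x) = (x - r) * f l + (r - l) * f x - (x - l) * f r := by
          rw [hc, hk]
          field_simp
          ring
        have h5 : 0 ≤ (r - l) * (f x - c x) := by rw [e4]; linarith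
        exact nonneg_of_mul_nonneg_right h5 hrl
  -- integrability
  have hci : ∀ m : Measure ℝ, IsFiniteMeasure m → Integrable (fun x : ℝ => x) m →
      Integrable c m := by
    intro m hm hmi
    rw [hc]
    exact (integrable_const _).add ((hmi.sub (integrable_const _)).const_mul _)
  have hbdd : ∀ (m : Measure ℝ), IsFiniteMeasure m → ∀ u : ℝ → ℝ, Continuous u →
      IntegrableOn u (Icc l r) m := fun m hm u hu =>
    hu.continuousOn.integrableOn_compact isCompact_Icc
  have hη_restr : η.restrict (Icc l r) = η := by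
    rw [Measure.restrict_eq_self_of_ae_mem]
    rw [ae_iff]
    exact hout
  have hfi : Integrable f η := by
    have := hbdd η hfη f hcont
    rwa [IntegrableOn, hη_restr] at this
  have hgi : Integrable g η := hfi.sub (hci η hfη hord.mom')
  have hgi' : Integrable g η' := hi.sub (hci η' hfη' hord'.mom')
  refine ⟨hfi, ?_⟩
  -- comparison of `g`
  have hmain : ∫ x, g x ∂η ≤ ∫ x, g x ∂η' := by
    have hIoo : MeasurableSet (Ioo l r) := measurableSet_Ioo
    -- `∫ g dη = ∫_{(l,r)} g dη`
    have s1 : ∫ x, g x ∂η = ∫ x in Ioo l r, g x ∂η := by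
      rw [← integral_add_compl hIoo hgi]
      have : ∫ x in (Ioo l r)ᶜ, g x ∂η = 0 := by
        apply integral_eq_zero_of_ae
        have hae : ∀ᵐ x ∂η, x ∈ Icc l r := by
          rw [ae_iff]
          exact hout
        filter_upwards [ae_restrict_of_ae hae, ae_restrict_mem hIoo.compl] with x hx hx'
        have : x = l ∨ x = r := by
          by_contra hne
          push Not at hne
          exact hx' ⟨lt_of_le_of_ne hx.1 (Ne.symm hne.1), lt_of_le_of_ne hx.2 hne.2⟩
        rcases this with rfl | rfl
        · show f x - c x = 0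
          rw [hcl, sub_self]
        · show f x - c x = 0
          rw [hcr, sub_self]
      rw [this, add_zero]
    have s2 : ∫ x in Ioo l r, g x ∂η = ∫ x in Ioo l r, g x ∂ν := by rw [hin]
    have s3 : ∫ x in Ioo l r, g x ∂ν ≤ ∫ x in Ioo l r, g x ∂η' :=
      setIntegral_anti hIoo hle' (fun x hx => hin_neg x (Ioo_subset_Icc_self hx))
        ((hbdd ν inferInstance g hgcont).mono_set Ioo_subset_Icc_self)
    have s4 : ∫ x in Ioo l r, g x ∂η' ≤ ∫ x, g x ∂η' := by
      rw [← integral_add_compl hIoo hgi']
      have : 0 ≤ ∫ x in (Ioo l r)ᶜ, g x ∂η' :=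
        setIntegral_nonneg hIoo.compl fun x hx => hout_pos x hx
      linarith
    linarith
  -- the affine part
  have hmeans : ∫ x, x ∂η = ∫ x, x ∂η' := hord.mean.symm.trans hord'.mean
  have hmass : η.real univ = η'.real univ := by
    unfold Measure.real
    rw [← hord.mass, ← hord'.mass]
  have haff : ∀ m : Measure ℝ, IsFiniteMeasure m → Integrable (fun x : ℝ => x) m →
      ∫ x, c x ∂m = m.real univ * (f l - k * l) + k * ∫ x, x ∂m := by
    intro m hm hmi
    have e : c = fun x => (f l - k * l) + k * x := by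
      funext x
      rw [hc]
      ring
    rw [e, integral_add (integrable_const _) (hmi.const_mul _), integral_const,
      integral_const_mul, smul_eq_mul]
  have hceq : ∫ x, c x ∂η = ∫ x, c x ∂η' := by
    rw [haff η hfη hord.mom', haff η' hfη' hord'.mom', hmeans, hmass]
  have e1 : ∫ x, g x ∂η = ∫ x, f x ∂η - ∫ x, c x ∂η :=
    integral_sub hfi (hci η hfη hord.mom')
  have e2 : ∫ x, g x ∂η' = ∫ x, f x ∂η' - ∫ x, c x ∂η' :=
    integral_sub hi (hci η' hfη' hord'.mom')
  linarith

/-- The shadow of a measure with the full mass is `ν` itself (`η' ≤ ν` with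
`η' univ = ν univ < ∞` implies `η' = ν`). -/
theorem isShadow_full {ν α : Measure ℝ} (hord : ConvexOrder α ν) : IsShadow ν α ν := by
  refine ⟨le_refl _, hord, fun η' hle' hord' => ?_⟩
  have := hord.fin'
  have := hord'.fin'
  have e : η' = ν := by
    refine Measure.ext fun s hs => le_antisymm (hle' s) ?_
    have h1 : ν s + ν sᶜ = η' s + η' sᶜ := by
      rw [measure_add_measure_compl hs, measure_add_measure_compl hs, ← hord.mass, hord'.mass]
    by_contra hlt
    rw [not_le] at hlt
    have h2 : η' s + η' sᶜ < ν s + ν sᶜ :=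
      ENNReal.add_lt_add_of_lt_of_le (measure_ne_top _ _) hlt (hle' sᶜ)
    exact absurd h1 h2.ne'
  rw [e]
  exact ConvexOrder.refl hord.mom'

end Pool.Agent.T2H73.LC
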