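import Pool.Agent.T2H73.LC.Shadow

/-!
# Package TH: left-curtain couplings of at most three particles
-/

set_option autoImplicit false

namespace Pool.Agent.T2H73.LC

open MeasureTheory Filter Topology Set
open scoped ENNReal

section dp

variable {x : ℝ} {κ : Measure ℝ}

theorem dp_fst [SFinite κ] : ((Measure.dirac x).prod κ).map Prod.fst = κ univ • Measure.dirac x := by
  rw [Measure.map_fst_prod]

theorem dp_snd [SFinite κ] : ((Measure.dirac x).prod κ).map Prod.snd = κ := by
  rw [Measure.map_snd_prod]
  simp

open Classical in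
theorem dp_restrict_of_mem [SFinite κ] {A : Set ℝ} (hA : MeasurableSet A) (hx : x ∈ A) :
    ((Measure.dirac x).prod κ).restrict (A ×ˢ univ) = (Measure.dirac x).prod κ := by
  rw [← Measure.prod_restrict, Measure.restrict_univ, restrict_dirac' hA, if_pos hx]

open Classical in
theorem dp_restrict_of_notMem [SFinite κ] {A : Set ℝ} (hA : MeasurableSet A) (hx : x ∉ A) :
    ((Measure.dirac x).prod κ).restrict (A ×ˢ univ) = 0 := by
  rw [← Measure.prod_restrict, Measure.restrict_univ, restrict_dirac' hA, if_neg hx,
    Measure.zero_prod]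

open Classical in
theorem pt_restrict_of_mem {m : ℝ} {A : Set ℝ} (hA : MeasurableSet A) (hx : x ∈ A) :
    (pt m x).restrict A = pt m x := by
  unfold pt
  rw [Measure.restrict_smul, restrict_dirac' hA, if_pos hx]

open Classical in
theorem pt_restrict_of_notMem {m : ℝ} {A : Set ℝ} (hA : MeasurableSet A) (hx : x ∉ A) :
    (pt m x).restrict A = 0 := by
  unfold pt
  rw [Measure.restrict_smul, restrict_dirac' hA, if_neg hx, smul_zero]

theorem dp_fst_eq [SFinite κ] {m : ℝ} (h : ConvexOrder (pt m x) κ) :
    ((Measure.dirac x).prod κ).map Prod.fst = pt m x := by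
  rw [dp_fst, ← h.mass, pt_univ]
  rfl

theorem dp_int_fst [IsFiniteMeasure κ] :
    Integrable (fun p : ℝ × ℝ => p.1) ((Measure.dirac x).prod κ) := by
  have h : (Measure.dirac x).prod κ = κ.map (fun y => (x, y)) := by
    rw [Measure.dirac_prod]
  rw [h]
  rw [integrable_map_measure (by fun_prop) (by fun_prop)]
  exact integrable_const _

theorem dp_int_snd [IsFiniteMeasure κ] (h : Integrable (fun y : ℝ => y) κ) :
    Integrable (fun p : ℝ × ℝ => p.2) ((Measure.dirac x).prod κ) := by
  have h' : (Measure.dirac x).prod κ = κ.map (fun y => (x, y)) := by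
    rw [Measure.dirac_prod]
  rw [h']
  rw [integrable_map_measure (by fun_prop) (by fun_prop)]
  exact h

theorem dp_integral [IsFiniteMeasure κ] (F : ℝ × ℝ → ℝ) (hF : Measurable F) :
    ∫ p, F p ∂((Measure.dirac x).prod κ) = ∫ y, F (x, y) ∂κ := by
  have h' : (Measure.dirac x).prod κ = κ.map (fun y => (x, y)) := by
    rw [Measure.dirac_prod]
  rw [h', integral_map (by fun_prop) hF.aestronglyMeasurable]

theorem dp_mart {m : ℝ} (h : ConvexOrder (pt m x) κ) :
    ∫ p, p.2 ∂((Measure.dirac x).prod κ) = ∫ p, p.1 ∂((Measure.dirac x).prod κ) := by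
  have := h.fin'
  rw [dp_integral (fun p => p.2) measurable_snd, dp_integral (fun p => p.1) measurable_fst,
    ← h.mean]
  show ∫ y, y ∂(pt m x) = ∫ _y, x ∂κ
  rw [integral_const, smul_eq_mul]
  have e : κ.real univ = (pt m x).real univ := by
    unfold Measure.real
    rw [h.mass]
  rw [e]
  unfold pt
  rw [integral_smul_measure, integral_dirac]
  unfold Measure.real
  simp

theorem dp_set_mart {m : ℝ} (h : ConvexOrder (pt m x) κ) {A : Set ℝ} (hA : MeasurableSet A) :
    ∫ p in Prod.fst ⁻¹' A, p.2 ∂((Measure.dirac x).prod κ) =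
      ∫ p in Prod.fst ⁻¹' A, p.1 ∂((Measure.dirac x).prod κ) := by
  have := h.fin'
  have e : (Prod.fst ⁻¹' A : Set (ℝ × ℝ)) = A ×ˢ univ := by
    ext p
    simp
  rw [e]
  by_cases hx : x ∈ A
  · rw [dp_restrict_of_mem hA hx]
    exact dp_mart h
  · rw [dp_restrict_of_notMem hA hx]
    simp

end dp

theorem convexOrder_zero : ConvexOrder 0 0 :=
  ConvexOrder.refl (by simp)

/-- Three particles `x1 < x2 < x3` of masses `m1`, `m2`, `m3` are sent to `κ1`, `κ2`, `κ3`.

Proof. `((dirac x).prod κ).map fst = κ univ • dirac x = pt m x` (masses: `ConvexOrder.mass`),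
`((dirac x).prod κ).map snd = κ`, restriction to `Iic u ×ˢ univ`: `(dirac x).prod κ` if `x ≤ u`,
`0` otherwise. Martingale property on `A`: `∫ y dκ = ∫ x d(pt m x) = m x` (convex order for
`± id`) if `x ∈ A`. Curtain property at `u`: `u < x1`: the shadow of `0` is `0`
(`isShadow_self`); `x1 ≤ u < x2`: `s1`; `x2 ≤ u < x3`: `s2`; `x3 ≤ u`: `isShadow_full` with
`ConvexOrder.add`. -/
theorem isCurtain_three {x1 x2 x3 : ℝ} (h12 : x1 < x2) (h23 : x2 < x3) {m1 m2 m3 : ℝ}
    {ν κ1 κ2 κ3 : Measure ℝ} (h1 : ConvexOrder (pt m1 x1) κ1) (h2 : ConvexOrder (pt m2 x2) κ2)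
    (h3 : ConvexOrder (pt m3 x3) κ3) (s1 : IsShadow ν (pt m1 x1) κ1)
    (s2 : IsShadow ν (pt m1 x1 + pt m2 x2) (κ1 + κ2)) (hν : κ1 + κ2 + κ3 = ν) :
    IsCurtain (pt m1 x1 + pt m2 x2 + pt m3 x3) ν
      ((Measure.dirac x1).prod κ1 + (Measure.dirac x2).prod κ2 +
        (Measure.dirac x3).prod κ3) := by
  have := h1.fin'
  have := h2.fin'
  have := h3.fin'
  have hint1 : ∀ A : Set ℝ, MeasurableSet A →
      (((Measure.dirac x1).prod κ1 + (Measure.dirac x2).prod κ2 +
        (Measure.dirac x3).prod κ3).restrict (A ×ˢ univ)).map Prod.fst =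
      (pt m1 x1 + pt m2 x2 + pt m3 x3).restrict A := by
    intro A hA
    have e : (Prod.fst ⁻¹' A : Set (ℝ × ℝ)) = A ×ˢ univ := by
      ext p
      simp
    rw [← e, ← Measure.restrict_map measurable_fst hA, Measure.map_add _ _ measurable_fst,
      Measure.map_add _ _ measurable_fst, dp_fst_eq h1, dp_fst_eq h2, dp_fst_eq h3]
  refine ⟨⟨?_, ?_, ?_, ?_, ?_⟩, fun u => hint1 _ measurableSet_Iic, fun u => ?_⟩
  · rw [Measure.map_add _ _ measurable_fst, Measure.map_add _ _ measurable_fst, dp_fst_eq h1,
      dp_fst_eq h2, dp_fst_eq h3]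
  · rw [Measure.map_add _ _ measurable_snd, Measure.map_add _ _ measurable_snd, dp_snd, dp_snd,
      dp_snd, hν]
  · exact (dp_int_fst.add_measure dp_int_fst).add_measure dp_int_fst
  · exact ((dp_int_snd h1.mom').add_measure (dp_int_snd h2.mom')).add_measure
      (dp_int_snd h3.mom')
  · intro A hA
    rw [Measure.restrict_add, Measure.restrict_add,
      integral_add_measure
        (((dp_int_snd h1.mom').restrict).add_measure ((dp_int_snd h2.mom').restrict))
        (dp_int_snd h3.mom').restrict,
      integral_add_measure (dp_int_snd h1.mom').restrict (dp_int_snd h2.mom').restrict,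
      integral_add_measure ((dp_int_fst.restrict).add_measure dp_int_fst.restrict)
        dp_int_fst.restrict,
      integral_add_measure dp_int_fst.restrict dp_int_fst.restrict,
      dp_set_mart h1 hA, dp_set_mart h2 hA, dp_set_mart h3 hA]
  · have hm : MeasurableSet (Iic u) := measurableSet_Iic
    rw [Measure.restrict_add, Measure.restrict_add, Measure.restrict_add, Measure.restrict_add]
    rcases lt_or_ge u x1 with c1 | c1
    · rw [dp_restrict_of_notMem hm (by simpa using c1),
        dp_restrict_of_notMem hm (by simpa using c1.trans h12),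
        dp_restrict_of_notMem hm (by simpa using (c1.trans h12).trans h23),
        pt_restrict_of_notMem hm (by simpa using c1),
        pt_restrict_of_notMem hm (by simpa using c1.trans h12),
        pt_restrict_of_notMem hm (by simpa using (c1.trans h12).trans h23)]
      simp only [add_zero, Measure.map_zero]
      exact isShadow_self (Measure.zero_le _) convexOrder_zero
    · rw [dp_restrict_of_mem hm (by simpa using c1), pt_restrict_of_mem hm (by simpa using c1)]
      rcases lt_or_ge u x2 with c2 | c2
      · rw [dp_restrict_of_notMem hm (by simpa using c2),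
          dp_restrict_of_notMem hm (by simpa using c2.trans h23),
          pt_restrict_of_notMem hm (by simpa using c2),
          pt_restrict_of_notMem hm (by simpa using c2.trans h23)]
        simp only [add_zero]
        rw [dp_snd]
        exact s1
      · rw [dp_restrict_of_mem hm (by simpa using c2), pt_restrict_of_mem hm (by simpa using c2)]
        rcases lt_or_ge u x3 with c3 | c3
        · rw [dp_restrict_of_notMem hm (by simpa using c3),
            pt_restrict_of_notMem hm (by simpa using c3)]
          simp only [add_zero]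
          rw [Measure.map_add _ _ measurable_snd, dp_snd, dp_snd]
          exact s2
        · rw [dp_restrict_of_mem hm (by simpa using c3),
            pt_restrict_of_mem hm (by simpa using c3), Measure.map_add _ _ measurable_snd,
            Measure.map_add _ _ measurable_snd, dp_snd, dp_snd, dp_snd, hν]
          apply isShadow_full
          rw [← hν]
          exact (h1.add h2).add h3

/-- The identity coupling is the left-curtain coupling of `μ` with itself (`isShadow_self` for
`μ.restrict (Iic x) ≤ μ`). -/
theorem isCurtain_id (μ : Measure ℝ) [IsProbabilityMeasure μ]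
    (h : Integrable (fun x : ℝ => x) μ) : IsCurtain μ μ (μ.map fun x => (x, x)) := by
  have hd : Measurable (fun x : ℝ => (x, x)) := by fun_prop
  have e0 : ∀ A : Set ℝ, (fun x : ℝ => (x, x)) ⁻¹' (A ×ˢ univ) = A := by
    intro A
    ext x
    simp
  have hr : ∀ A : Set ℝ, MeasurableSet A →
      (μ.map fun x => (x, x)).restrict (A ×ˢ univ) = (μ.restrict A).map fun x => (x, x) := by
    intro A hA
    rw [Measure.restrict_map hd (hA.prod MeasurableSet.univ), e0]
  have hf : ∀ m : Measure ℝ, (m.map fun x => (x, x)).map Prod.fst = m := by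
    intro m
    rw [Measure.map_map measurable_fst hd]
    exact Measure.map_id
  have hs : ∀ m : Measure ℝ, (m.map fun x => (x, x)).map Prod.snd = m := by
    intro m
    rw [Measure.map_map measurable_snd hd]
    exact Measure.map_id
  refine ⟨⟨hf μ, hs μ, ?_, ?_, ?_⟩, fun x => ?_, fun x => ?_⟩
  · rw [integrable_map_measure (by fun_prop) hd.aemeasurable]
    exact h
  · rw [integrable_map_measure (by fun_prop) hd.aemeasurable]
    exact h
  · intro A hA
    have e : (Prod.fst ⁻¹' A : Set (ℝ × ℝ)) = A ×ˢ univ := by
      ext p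
      simp
    rw [e, hr A hA, integral_map hd.aemeasurable (by fun_prop),
      integral_map hd.aemeasurable (by fun_prop)]
  · rw [hr _ measurableSet_Iic, hf]
  · rw [hr _ measurableSet_Iic, hs]
    exact isShadow_self Measure.restrict_le_self (ConvexOrder.refl h.integrableOn)

/-- If `μ` is carried by `(-∞, b]` then `μ ≤_c ν` (the field `shadow` at `b`, with `restrict` equal
to the whole measure on both sides). -/
theorem convexOrder_of_isCurtain {μ ν : Measure ℝ} {π : Measure (ℝ × ℝ)} (h : IsCurtain μ ν π)
    (b : ℝ) (hb : μ (Ioi b) = 0) : ConvexOrder μ ν := by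
  have h1 := (h.shadow b).ord
  have e1 : μ.restrict (Iic b) = μ := by
    rw [Measure.restrict_eq_self_of_ae_mem]
    rw [ae_iff]
    have : {x | x ∉ Iic b} = Ioi b := by
      ext x
      simp
    rw [this]
    exact hb
  have e2 : π.restrict (Iic b ×ˢ univ) = π := by
    rw [Measure.restrict_eq_self_of_ae_mem]
    rw [ae_iff]
    have : {p : ℝ × ℝ | p ∉ Iic b ×ˢ (univ : Set ℝ)} = Prod.fst ⁻¹' (Ioi b) := by
      ext x
      simp
    rw [this, ← Measure.map_apply measurable_fst measurableSet_Ioi, h.coupling.fst]
    exact hb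
  rw [e1, e2, h.coupling.snd] at h1
  exact h1

end Pool.Agent.T2H73.LC
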