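import Pool.Agent.T2H73.LC.Defs

/-!
# Package TI: stages and càdlàg paths

Times `sT j = 1/2 - 1/2^(j+1)` increase to `1/2`, `sT 0 = 0`. A time `t < 1/2` is in stage `j` when
`sT j ≤ t < sT (j+1)`.
-/

set_option autoImplicit false

namespace Pool.Agent.T2H73.LC

open MeasureTheory Filter Topology Set
open scoped ENNReal

/-- The switching times. -/
noncomputable def sT (j : ℕ) : ℝ := 1 / 2 - 1 / 2 ^ (j + 1)

/-- The stage of a time `0 ≤ t < 1/2`. -/
noncomputable def stage (t : ℝ) : ℕ := sInf {n : ℕ | t < sT (n + 1)}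

/-- The path which is `y j` during stage `j` and `e` from time `1/2` on. -/
noncomputable def pathFun (y : ℕ → ℝ) (e : ℝ) : T → ℝ := fun t =>
  if (t : ℝ) < 1 / 2 then y (stage t) else e

theorem sT_zero : sT 0 = 0 := by unfold sT; norm_num

theorem sT_strictMono : StrictMono sT := by
  apply strictMono_nat_of_lt_succ
  intro n
  unfold sT
  have h : (1 : ℝ) / 2 ^ (n + 1 + 1) < 1 / 2 ^ (n + 1) :=
    one_div_lt_one_div_of_lt (by positivity) (pow_lt_pow_right₀ (by norm_num) (by omega))
  linarith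

theorem sT_lt (n : ℕ) : sT n < 1 / 2 := by
  unfold sT
  have : (0 : ℝ) < 1 / 2 ^ (n + 1) := by positivity
  linarith

theorem exists_lt_sT {t : ℝ} (ht : t < 1 / 2) : ∃ n, t < sT (n + 1) := by
  have h : Tendsto (fun n : ℕ => (1 / 2 : ℝ) ^ (n + 2)) atTop (𝓝 0) :=
    (tendsto_pow_atTop_nhds_zero_of_lt_one (by norm_num) (by norm_num)).comp
      (tendsto_add_atTop_nat 2)
  obtain ⟨n, hn⟩ := (h.eventually (gt_mem_nhds (show (0 : ℝ) < 1 / 2 - t by linarith))).exists
  refine ⟨n, ?_⟩
  unfold sT
  rw [one_div_pow] at hn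
  have e : n + 1 + 1 = n + 2 := rfl
  rw [e]
  linarith

/-- For `0 ≤ t < 1/2` the set `{n | t < sT (n+1)}` is nonempty (`sT n → 1/2`), so `stage t` is its
minimum; `sT` is increasing and `sT 0 = 0 ≤ t`. -/
theorem stage_eq_iff {t : ℝ} (h0 : 0 ≤ t) (ht : t < 1 / 2) (j : ℕ) :
    stage t = j ↔ sT j ≤ t ∧ t < sT (j + 1) := by
  constructor
  · rintro rfl
    have h1 : t < sT (stage t + 1) := Nat.sInf_mem (s := {n : ℕ | t < sT (n + 1)}) (exists_lt_sT ht)
    refine ⟨?_, h1⟩
    rcases hs : stage t with _ | m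
    · rw [sT_zero]
      exact h0
    · have h2 : m ∉ {n : ℕ | t < sT (n + 1)} := by
        apply Nat.notMem_of_lt_sInf
        change m < stage t
        omega
      simpa using h2
  · rintro ⟨h1, h2⟩
    apply le_antisymm
    · exact Nat.sInf_le h2
    · have h3 : t < sT (stage t + 1) :=
        Nat.sInf_mem (s := {n : ℕ | t < sT (n + 1)}) (exists_lt_sT ht)
      have h4 : sT j < sT (stage t + 1) := lt_of_le_of_lt h1 h3
      have h5 := sT_strictMono.lt_iff_lt.1 h4
      omega

/-- Monotonicity of the stage. -/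
theorem stage_mono {s t : ℝ} (h0 : 0 ≤ s) (hst : s ≤ t) (ht : t < 1 / 2) :
    stage s ≤ stage t := by
  have h1 := ((stage_eq_iff h0 (lt_of_le_of_lt hst ht) _).1 rfl).1
  have h2 := ((stage_eq_iff (h0.trans hst) ht _).1 rfl).2
  have h3 : sT (stage s) < sT (stage t + 1) := by linarith
  have h4 := sT_strictMono.lt_iff_lt.1 h3
  omega

theorem pathFun_of_stage (y : ℕ → ℝ) (e : ℝ) {v : T} {j : ℕ} (h1 : sT j ≤ (v : ℝ))
    (h2 : (v : ℝ) < sT (j + 1)) : pathFun y e v = y j := by
  have h3 : (v : ℝ) < 1 / 2 := h2.trans (sT_lt _)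
  unfold pathFun
  rw [if_pos h3, (stage_eq_iff v.2.1 h3 j).2 ⟨h1, h2⟩]

theorem pathFun_of_ge (y : ℕ → ℝ) (e : ℝ) {v : T} (h : 1 / 2 ≤ (v : ℝ)) : pathFun y e v = e := by
  unfold pathFun
  rw [if_neg (not_lt.2 h)]

theorem lt_mem (u : T) (S : Set T) {c : ℝ} (h : (u : ℝ) < c) : ∀ᶠ v : T in 𝓝[S] u, (v : ℝ) < c :=
  mem_nhdsWithin_of_mem_nhds ((isOpen_lt continuous_subtype_val continuous_const).mem_nhds h)

theorem gt_mem (u : T) (S : Set T) {c : ℝ} (h : c < (u : ℝ)) : ∀ᶠ v : T in 𝓝[S] u, c < (v : ℝ) :=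
  mem_nhdsWithin_of_mem_nhds ((isOpen_lt continuous_const continuous_subtype_val).mem_nhds h)

/-- If `y` converges then the path is càdlàg. Right-continuity at `u`: if `u < 1/2` is in stage `j`
then the path is constant on `[u, sT (j+1))`; if `u ≥ 1/2` it is constant on `[u, 1]`. Left limits
at `u`: if `u = 0` then `𝓝[<] u = ⊥`; if `0 < u < 1/2` is in stage `j` then either `sT j < u` and
the path is constant on `[sT j, u)`, or `u = sT j`, `j = i + 1`, and the path is constant (`= y i`)
on `[sT i, u)`; at `u = 1/2` the left limit is `lim y` (`stage t → ∞` as `t ↑ 1/2`); if `u > 1/2`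
the path is constant on `[1/2, u)`. -/
theorem isCadlag_pathFun (y : ℕ → ℝ) (e : ℝ) (hy : ∃ l, Tendsto y atTop (𝓝 l)) :
    IsCadlag (pathFun y e) := by
  intro u
  constructor
  · by_cases hu : (u : ℝ) < 1 / 2
    · obtain ⟨h1, h2⟩ := (stage_eq_iff u.2.1 hu _).1 rfl
      have h3 : pathFun y e u = y (stage u) := pathFun_of_stage y e h1 h2
      refine Tendsto.congr' ?_ (tendsto_const_nhds (x := pathFun y e u))
      filter_upwards [self_mem_nhdsWithin, lt_mem u _ h2] with v hv1 hv2
      have hv1' : (u : ℝ) ≤ v := hv1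
      rw [h3, pathFun_of_stage y e (h1.trans hv1') hv2]
    · refine Tendsto.congr' ?_ (tendsto_const_nhds (x := pathFun y e u))
      filter_upwards [self_mem_nhdsWithin] with v hv1
      have hv1' : (u : ℝ) ≤ v := hv1
      rw [pathFun_of_ge y e (not_lt.1 hu), pathFun_of_ge y e ((not_lt.1 hu).trans hv1')]
  · rcases lt_trichotomy (u : ℝ) (1 / 2) with hu | hu | hu
    · obtain ⟨h1, h2⟩ := (stage_eq_iff u.2.1 hu _).1 rfl
      rcases h1.lt_or_eq with h3 | h3
      · refine ⟨y (stage u), ?_⟩
        refine Tendsto.congr' ?_ tendsto_const_nhds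
        filter_upwards [self_mem_nhdsWithin, gt_mem u _ h3] with v hv1 hv2
        have hv1' : (v : ℝ) < u := hv1
        rw [pathFun_of_stage y e hv2.le (hv1'.trans h2)]
      · rcases hs : stage u with _ | i
        · rw [hs, sT_zero] at h3
          refine ⟨0, ?_⟩
          refine Tendsto.congr' ?_ tendsto_const_nhds
          filter_upwards [self_mem_nhdsWithin] with v hv1
          have hv1' : (v : ℝ) < u := hv1
          have := v.2.1
          exfalso
          linarith
        · rw [hs] at h3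
          refine ⟨y i, ?_⟩
          refine Tendsto.congr' ?_ tendsto_const_nhds
          have h4 : sT i < (u : ℝ) := by
            rw [← h3]
            exact sT_strictMono (Nat.lt_succ_self i)
          filter_upwards [self_mem_nhdsWithin, gt_mem u _ h4] with v hv1 hv2
          have hv1' : (v : ℝ) < u := hv1
          rw [pathFun_of_stage y e hv2.le (by rw [h3]; exact hv1')]
    · obtain ⟨l, hl⟩ := hy
      refine ⟨l, ?_⟩
      have h1 : Tendsto (fun v : T => stage (v : ℝ)) (𝓝[<] u) atTop := by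
        rw [tendsto_atTop]
        intro n
        filter_upwards [self_mem_nhdsWithin, gt_mem u _ (show sT n < (u : ℝ) by
          rw [hu]; exact sT_lt n)] with v hv1 hv2
        have hv1' : (v : ℝ) < u := hv1
        have hv3 : (v : ℝ) < 1 / 2 := by linarith
        have h2 := ((stage_eq_iff v.2.1 hv3 _).1 rfl).2
        have h4 := sT_strictMono.lt_iff_lt.1 (hv2.trans h2)
        omega
      refine Tendsto.congr' ?_ (hl.comp h1)
      filter_upwards [self_mem_nhdsWithin] with v hv1
      have hv1' : (v : ℝ) < u := hv1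
      simp only [Function.comp, pathFun]
      rw [if_pos (by linarith)]
    · refine ⟨e, ?_⟩
      refine Tendsto.congr' ?_ tendsto_const_nhds
      filter_upwards [gt_mem u _ hu] with v hv
      rw [pathFun_of_ge y e hv.le]

end Pool.Agent.T2H73.LC
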